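import Pool.Agent.H85T.Keys2

/-! Continuity from the right of the exponents, and the converse implications. -/

open MeasureTheory Metric Set Filter
open scoped Topology ENNReal InnerProductSpace
open Pool.Agent.H818R2

namespace Pool.Agent.H85T

open Pool.Agent.H85G

/-- the loss of the block argument -/
lemma tendsto_loss {a : ℝ} (ha1 : a < 1) :
    Tendsto (fun m : ℕ => Real.logb 2 (2 / (1 / (2 * (m : ℝ)) * (1 - a) ^ 2 / 32)) / m) atTop
      (𝓝 0) := by
  have h1a : 0 < 1 - a := by linarith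
  have h1 : Tendsto (fun m : ℕ => Real.logb 2 (32 / (1 - a) ^ 2) / m +
      Real.logb 2 (4 * ((m : ℝ) + 1)) / m) atTop (𝓝 (0 + 0)) :=
    (tendsto_const_div_atTop_nhds_zero_nat _).add tendsto_logb_div
  rw [add_zero] at h1
  have h2 : Tendsto (fun m : ℕ => -(|Real.logb 2 (128 / (1 - a) ^ 2)| / m)) atTop (𝓝 0) := by
    have := (tendsto_const_div_atTop_nhds_zero_nat |Real.logb 2 (128 / (1 - a) ^ 2)|).neg
    rwa [neg_zero] at this
  apply tendsto_of_tendsto_of_tendsto_of_le_of_le' h2 h1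
  · filter_upwards [eventually_ge_atTop 1] with m hm
    have hm0 : (1 : ℝ) ≤ m := by exact_mod_cast hm
    rw [← neg_div]
    apply div_le_div_of_nonneg_right _ (by positivity)
    refine (neg_abs_le _).trans (Real.logb_le_logb_of_le (by norm_num) (by positivity) ?_)
    have e : 2 / (1 / (2 * (m : ℝ)) * (1 - a) ^ 2 / 32) = 128 / (1 - a) ^ 2 * m := by
      field_simp; ring
    rw [e]
    have : 0 < 128 / (1 - a) ^ 2 := by positivity
    nlinarith
  · filter_upwards [eventually_ge_atTop 1] with m hm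
    have hm0 : (1 : ℝ) ≤ m := by exact_mod_cast hm
    rw [← add_div]
    apply div_le_div_of_nonneg_right _ (by positivity)
    rw [← Real.logb_mul (by positivity) (by positivity)]
    apply Real.logb_le_logb_of_le (by norm_num) (by positivity)
    have e : 2 / (1 / (2 * (m : ℝ)) * (1 - a) ^ 2 / 32) = 32 / (1 - a) ^ 2 * (4 * m) := by
      field_simp; ring
    rw [e]
    apply mul_le_mul_of_nonneg_left _ (by positivity)
    linarith

section
variable {θ : ℝ} (h0 : 0 < θ) (h1 : θ < Real.pi / 2)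
include h0 h1

/-- The exponents are continuous from the right. -/
theorem right_cont {ε η : ℝ} (hε : 0 < ε) (hη : 0 < η) :
    ∃ φ : ℝ, θ < φ ∧ φ < Real.pi / 2 ∧ Real.cos θ - Real.cos φ < η ∧
      ∀ᶠ n : ℕ in atTop, codeRate θ n ≤ codeRate φ n + ε := by
  have ha0 := cos_pos' h0 h1
  have ha1 := cos_lt h0 h1
  have hpi := Real.pi_pos
  set a := Real.cos θ with had
  have h1a : 0 < 1 - a := by linarith
  have hlim : Tendsto (fun m : ℕ => 1 / (2 * (m : ℝ))) atTop (𝓝 0) := by
    have h := tendsto_const_div_atTop_nhds_zero_nat (1 / 2 : ℝ)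
    refine h.congr fun m => ?_
    rw [div_div]
  obtain ⟨m, hm1, hm2, hm3, hm4⟩ := ((hlim.eventually (gt_mem_nhds ha0)).and
    ((hlim.eventually (gt_mem_nhds hη)).and
    (((tendsto_loss ha1).eventually (gt_mem_nhds (show (0 : ℝ) < ε / 2 by linarith))).and
    (eventually_ge_atTop 1)))).exists
  have hm0 : (1 : ℝ) ≤ m := by exact_mod_cast hm4
  obtain ⟨s0, hs0⟩ : ∃ s0 : ℝ, s0 = 1 / (2 * (m : ℝ)) := ⟨_, rfl⟩
  rw [← hs0] at hm1 hm2 hm3
  have hs0p : 0 < s0 := by rw [hs0]; positivity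
  set b : ℝ := a - s0 * (1 - a) / 2 with hb
  have hsa : s0 * (1 - a) ≤ s0 * 1 := mul_le_mul_of_nonneg_left (by linarith) hs0p.le
  have hsa0 : 0 < s0 * (1 - a) := mul_pos hs0p h1a
  have hb0 : 0 < b := by rw [hb]; linarith
  have hba : b < a := by rw [hb]; linarith
  have hcosφ : Real.cos (Real.arccos b) = b := Real.cos_arccos (by linarith) (by linarith)
  have hθφ : θ < Real.arccos b := by
    rw [← Real.arccos_cos h0.le (by linarith)]
    exact Real.arccos_lt_arccos (by linarith) hba (by rw [← had]; linarith)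
  have hφ2 : Real.arccos b < Real.pi / 2 := Real.arccos_lt_pi_div_two.2 hb0
  have hφ0 : 0 < Real.arccos b := h0.trans hθφ
  set φ := Real.arccos b with hφ
  refine ⟨φ, hθφ, hφ2, by rw [hcosφ, hb]; linarith, ?_⟩
  set δ : ℝ := s0 * (1 - a) ^ 2 / 32 with hδ
  have hδ0 : 0 < δ := by positivity
  set L : ℝ := Real.logb 2 (2 / δ) with hL
  have hs0' : s0 ≤ 1 / 2 := by
    rw [hs0]
    apply div_le_div_of_nonneg_left (by norm_num) (by norm_num)
    linarith
  have hδ1 : δ < 1 := by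
    have : s0 * (1 - a) ^ 2 ≤ 1 * 1 := mul_le_mul (by linarith)
      (by nlinarith) (by positivity) (by norm_num)
    rw [hδ]; linarith
  have hL0 : 0 < L := Real.logb_pos (by norm_num) (by rw [lt_div_iff₀ hδ0]; linarith)
  have hLm : L / m < ε / 2 := hm3
  -- large `n`
  have hlim2 : Tendsto (fun n : ℕ => (L - Real.logb 2 s0) / n) atTop (𝓝 0) :=
    tendsto_const_div_atTop_nhds_zero_nat _
  filter_upwards [hlim2.eventually (gt_mem_nhds (show (0 : ℝ) < ε / 2 by linarith)),
    eventually_ge_atTop 2] with n hn hn2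
  have : NeZero n := ⟨by omega⟩
  have hn0 : (0 : ℝ) < n := by
    have : 0 < n := by omega
    exact_mod_cast this
  have hsθ := sin_half h0 h1
  have hsφ := sin_half hφ0 hφ2
  have hineq := right_ineq (n := n) (θ := θ) (φ := φ) (s0 := s0) (δ := δ) (by omega : 0 < m) hs0
    hsθ hsφ ha0 (by rw [hcosφ]; exact hb0.le) (by rw [hcosφ, hb, ← had]; linarith) hδ0
    (by rw [hδ])
  have hA := sphMax_pos hn2 hsθ
  have hlog := Real.logb_le_logb_of_le (b := 2) (by norm_num) (by positivity) hineq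
  rw [Real.logb_mul (by positivity) (by positivity), Real.logb_mul (by positivity) (by positivity),
    Real.logb_pow] at hlog
  have e1 : Real.logb 2 (δ / 2) = -L := by
    rw [hL, ← Real.logb_inv, inv_div]
  rw [e1] at hlog
  have hnm : (((n / m + 1 : ℕ) : ℝ)) ≤ n / m + 1 := by
    push_cast
    have := Nat.cast_div_le (α := ℝ) (m := n) (n := m)
    linarith
  have h3 : (((n / m + 1 : ℕ) : ℝ)) * L ≤ (n / m + 1) * L := mul_le_mul_of_nonneg_right hnm hL0.le
  have h4 : (n / m + 1) * L = n * (L / m) + L := by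
    field_simp
  have h5 : L - Real.logb 2 s0 < ε / 2 * n := by
    rwa [div_lt_iff₀ hn0] at hn
  have h6 : n * (L / m) ≤ n * (ε / 2) := mul_le_mul_of_nonneg_left hLm.le hn0.le
  unfold codeRate
  rw [div_add' _ _ _ hn0.ne']
  apply div_le_div_of_nonneg_right _ hn0.le
  linarith

lemma bnd_cont : ∀ κ : ℝ, 0 < κ → ∃ η : ℝ, 0 < η ∧ ∀ φ : ℝ, Real.cos φ < Real.cos θ →
    Real.cos θ - Real.cos φ < η → bnd θ φ < -Real.logb 2 (Real.sin θ) + κ := by
  intro κ hκ
  have ha0 := cos_pos' h0 h1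
  have ha1 := cos_lt h0 h1
  set a := Real.cos θ with had
  set f : ℝ → ℝ := fun b => 1 / 2 * Real.logb 2 (1 + a ^ 2 / ((1 - b) * (1 + a))) with hf
  have hfa : f a = -Real.logb 2 (Real.sin θ) := by
    rw [← wyner_eq θ, ← had, hf]
    simp only
    have e : 1 + a ^ 2 / ((1 - a) * (1 + a)) = (1 - a ^ 2)⁻¹ := by
      have e1 : (1 - a) ≠ 0 := by linarith
      have e2 : (1 + a) ≠ 0 := by linarith
      have e3 : 1 - a ^ 2 = (1 - a) * (1 + a) := by ring
      rw [e3]
      field_simp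
      ring
    rw [e, Real.logb_inv]
    ring
  have hcont : ContinuousAt f a := by
    rw [hf]
    apply ContinuousAt.mul continuousAt_const
    unfold Real.logb
    apply ContinuousAt.div_const
    apply ContinuousAt.log
    · apply ContinuousAt.add continuousAt_const
      apply ContinuousAt.div continuousAt_const (by fun_prop)
      have : 0 < (1 - a) * (1 + a) := mul_pos (by linarith) (by linarith)
      exact this.ne'
    · have : 0 < (1 - a) * (1 + a) := mul_pos (by linarith) (by linarith)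
      positivity
  have h2 := hcont.eventually (gt_mem_nhds (show f a < f a + κ by linarith))
  rw [Metric.eventually_nhds_iff] at h2
  obtain ⟨η, hη, h3⟩ := h2
  refine ⟨η, hη, fun φ hφ1 hφ2 => ?_⟩
  have h4 := h3 (y := Real.cos φ) (by
    rw [Real.dist_eq, abs_lt]
    constructor <;> linarith)
  rw [hfa] at h4
  exact h4

/-- From large codes of angle `θ` to large codes of a larger angle. -/
theorem key_conv {κ : ℝ} (hκ : 0 < κ) :
    ∃ φ : ℝ, θ < φ ∧ φ < Real.pi / 2 ∧ ∀ᶠ n : ℕ in atTop,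
      -Real.logb 2 (Real.sin θ) + κ ≤ codeRate θ n → bnd θ φ + κ / 2 ≤ codeRate φ n := by
  obtain ⟨η, hη, hb⟩ := bnd_cont h0 h1 (κ / 4) (by linarith)
  obtain ⟨φ, hφ1, hφ2, hφ3, hφ4⟩ := right_cont h0 h1 (ε := κ / 4) (by linarith) hη
  refine ⟨φ, hφ1, hφ2, ?_⟩
  have hcos : Real.cos φ < Real.cos θ :=
    Real.cos_lt_cos_of_nonneg_of_le_pi_div_two h0.le hφ2.le hφ1
  have h5 := hb φ hcos hφ3
  filter_upwards [hφ4] with n hn h
  linarith

/-- From large codes of a larger angle to large codes in a cap. -/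
theorem key_lift {φ κ : ℝ} (hφ : Real.cos φ < Real.cos θ) (hφ1 : 0 < φ) (hφ2 : φ < Real.pi / 2)
    (hκ : 0 < κ) : ∀ᶠ n : ℕ in atTop, bnd θ φ + κ ≤ codeRate φ n →
    ∃ (I : Finset (EuclideanSpace ℝ (Fin (n + 1)))) (e : EuclideanSpace ℝ (Fin (n + 1))),
      IsSphCode (n + 1) θ I ∧ ‖e‖ = 1 ∧ (∀ x ∈ I, ca θ φ ≤ ⟪x, e⟫_ℝ) ∧
      (2 : ℝ) ^ ((thr (Real.cos θ) (ca θ φ) + κ / 2) * ((n + 1 : ℕ) : ℝ)) ≤ I.card := by
  have hlim : Tendsto (fun n : ℕ => (bnd θ φ + κ / 2) / n) atTop (𝓝 0) :=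
    tendsto_const_div_atTop_nhds_zero_nat _
  filter_upwards [hlim.eventually (gt_mem_nhds (show (0 : ℝ) < κ / 2 by linarith)),
    eventually_ge_atTop 2] with n hn hn2 h
  have hn0 : (0 : ℝ) < n := by
    have : 0 < n := by omega
    exact_mod_cast this
  obtain ⟨I, hI, hIp, hIc⟩ := lift_code (by omega : 0 < n) h0 h1 hφ
  refine ⟨I, pole n, hI, norm_pole, hIp, ?_⟩
  rw [thr_ca h0 h1 hφ, hIc]
  have hA := sphMax_pos hn2 (sin_half hφ1 hφ2)
  rw [← Real.le_logb_iff_rpow_le (by norm_num) hA]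
  unfold codeRate at h
  rw [le_div_iff₀ hn0] at h
  rw [div_lt_iff₀ hn0] at hn
  push_cast
  linarith

end

end Pool.Agent.H85T
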