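import Pool.Agent.H85T.Block

/-! Continuity from the right: the inequality. -/

open MeasureTheory Metric Set Filter
open scoped Topology ENNReal InnerProductSpace
open Pool.Agent.H818R2

namespace Pool.Agent.H85T

open Pool.Agent.H85G

variable {n : ℕ}

lemma sphMax_one_le [NeZero n] {θ : ℝ} (hs : 0 < Real.sin (θ / 2)) : 1 ≤ sphMax n θ := by
  classical
  set e : EuclideanSpace ℝ (Fin n) := EuclideanSpace.single ⟨0, Nat.pos_of_ne_zero (NeZero.ne n)⟩ 1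
    with he
  have h : IsSphCode n θ {e} := by
    constructor
    · intro x hx
      rw [Finset.mem_singleton] at hx
      rw [hx, he]; simp
    · intro x hx y hy hxy
      rw [Finset.mem_singleton] at hx hy
      exact absurd (hx.trans hy.symm) hxy
  have := le_sphMax hs h
  simpa using this

/-- the real-number part -/
lemma cell_real {a b s0 δ p r u v D W : ℝ} (ha0 : 0 < a) (ha1 : a < 1) (hs0 : 0 < s0)
    (hb0 : 0 ≤ b) (hb1 : b ≤ 1) (hb : s0 * (1 - a) / 2 ≤ b - (a - s0 * (1 - a)))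
    (hδ : 0 < δ) (hδ1 : δ ≤ s0 * (1 - a) ^ 2 / 32) (hs1 : s0 < 1)
    (hp0 : 0 ≤ p) (hr0 : 0 ≤ r) (hu0 : 0 ≤ u) (hv0 : 0 ≤ v) (hD0 : 0 ≤ D)
    (h1 : p ^ 2 + u ^ 2 = 1) (h2 : r ^ 2 + v ^ 2 = 1) (hps : s0 ≤ p ^ 2) (hrs : s0 ≤ r ^ 2)
    (h5 : D < 2 * δ) (h6 : |p - r| < 2 * δ) (h8 : -(u * v) ≤ W)
    (hW : W ≤ a - (p ^ 2 + r ^ 2) / 2 + D ^ 2 / 2) :
    0 < u ∧ 0 < v ∧ W ≤ b * (u * v) := by
  rw [abs_lt] at h6
  have hu2 := sq_nonneg u
  have hv2 := sq_nonneg v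
  have hp1 : p ≤ 1 := by
    by_contra hcon
    push Not at hcon
    have : 1 < p ^ 2 := one_lt_pow₀ hcon (by norm_num)
    linarith
  have hr1 : r ≤ 1 := by
    by_contra hcon
    push Not at hcon
    have : 1 < r ^ 2 := one_lt_pow₀ hcon (by norm_num)
    linarith
  have h1a : 0 < 1 - a := by linarith
  have hsa : s0 * (1 - a) ≤ 1 := by
    calc s0 * (1 - a) ≤ 1 * 1 := mul_le_mul hs1.le (by linarith) h1a.le (by norm_num)
      _ = 1 := by norm_num
  have hδs : δ ≤ (1 - a) / 32 := by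
    have : s0 * (1 - a) ^ 2 ≤ 1 - a := by
      calc s0 * (1 - a) ^ 2 = s0 * (1 - a) * (1 - a) := by ring
        _ ≤ 1 * (1 - a) := mul_le_mul_of_nonneg_right hsa h1a.le
        _ = 1 - a := by ring
    linarith
  have hδs' : δ ≤ 1 / 32 := by linarith
  obtain ⟨s, hs⟩ : ∃ s, s = (p ^ 2 + r ^ 2) / 2 := ⟨_, rfl⟩
  rw [← hs] at hW
  have hss : s0 ≤ s := by rw [hs]; linarith
  have hD2 : D ^ 2 ≤ (2 * δ) ^ 2 := pow_le_pow_left₀ hD0 h5.le 2
  have hδ2 : (2 * δ) ^ 2 ≤ δ / 8 := by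
    calc (2 * δ) ^ 2 = 4 * δ * δ := by ring
      _ ≤ 4 * (1 / 32) * δ := by
          apply mul_le_mul_of_nonneg_right _ hδ.le
          linarith
      _ = δ / 8 := by ring
  have hd : ∀ p r : ℝ, 0 ≤ p → 0 ≤ r → p ≤ 1 → r ≤ 1 → p - r < 2 * δ → p ^ 2 - r ^ 2 ≤ 4 * δ := by
    intro p r hp hr hp1 hr1 hpr
    have e : p ^ 2 - r ^ 2 = (p - r) * (p + r) := by ring
    rw [e]
    rcases le_or_gt 0 (p - r) with h | h
    · calc (p - r) * (p + r) ≤ (2 * δ) * 2 := mul_le_mul hpr.le (by linarith) (by linarith)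
            (by linarith)
        _ = 4 * δ := by ring
    · have : (p - r) * (p + r) ≤ 0 := mul_nonpos_of_nonpos_of_nonneg h.le (by linarith)
      linarith
  have hd1 := hd p r hp0 hr0 hp1 hr1 h6.2
  have hd2 := hd r p hr0 hp0 hr1 hp1 (by linarith)
  have hu2' : 1 - s - 2 * δ ≤ u ^ 2 := by rw [hs]; linarith
  have hv2' : 1 - s - 2 * δ ≤ v ^ 2 := by rw [hs]; linarith
  have hWle : W ≤ a - s + δ / 16 := by linarith
  -- upper bound for `s`
  have huv : u * v ≤ 1 - s := by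
    have e : (u - v) ^ 2 = u ^ 2 + v ^ 2 - 2 * (u * v) := by ring
    have := sq_nonneg (u - v)
    rw [hs]; linarith
  have hs1' : (1 - a) / 4 ≤ 1 - s := by linarith
  have hpos : 0 < 1 - s - 2 * δ := by linarith
  have hu : 0 < u := by
    rcases eq_or_lt_of_le hu0 with h | h
    · rw [← h] at hu2'; norm_num at hu2'; linarith
    · exact h
  have hv : 0 < v := by
    rcases eq_or_lt_of_le hv0 with h | h
    · rw [← h] at hv2'; norm_num at hv2'; linarith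
    · exact h
  refine ⟨hu, hv, ?_⟩
  have huv2 : 1 - s - 2 * δ ≤ u * v := by
    rcases le_total u v with h | h
    · have : u * u ≤ u * v := mul_le_mul_of_nonneg_left h hu0
      linarith [pow_two u]
    · have : v * v ≤ u * v := mul_le_mul_of_nonneg_right h hv0
      linarith [pow_two v]
  have hb' := mul_le_mul_of_nonneg_left huv2 hb0
  refine hWle.trans (le_trans ?_ hb')
  -- `a - s + δ/16 ≤ b (1 - s - 2 δ)`
  have e1 : a - s ≤ (a - s0 * (1 - a)) * (1 - s) := by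
    have e2 : (a - s0 * (1 - a)) * (1 - s) - (a - s) = (1 - a) * (s - s0 * (1 - s)) := by ring
    have e3 : 0 ≤ s - s0 * (1 - s) := by
      have : s0 * (1 - s) ≤ s0 * 1 := mul_le_mul_of_nonneg_left (by linarith) hs0.le
      linarith
    have := mul_nonneg h1a.le e3
    linarith
  have e4 : s0 * (1 - a) / 2 * (1 - s) ≤ (b - (a - s0 * (1 - a))) * (1 - s) :=
    mul_le_mul_of_nonneg_right hb (by linarith)
  have e5 : s0 * (1 - a) / 2 * ((1 - a) / 4) ≤ s0 * (1 - a) / 2 * (1 - s) :=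
    mul_le_mul_of_nonneg_left hs1' (by have := mul_pos hs0 h1a; linarith)
  have e6 : s0 * (1 - a) / 2 * ((1 - a) / 4) = s0 * (1 - a) ^ 2 / 8 := by ring
  have e7 : b * (2 * δ) ≤ 1 * (2 * δ) := mul_le_mul_of_nonneg_right hb1 (by linarith)
  have e8 : b * (1 - s - 2 * δ) = (b - (a - s0 * (1 - a))) * (1 - s) +
    (a - s0 * (1 - a)) * (1 - s) - b * (2 * δ) := by ring
  rw [e8]
  linarith

open Classical in
/-- the geometric part: two points of the cell -/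
lemma cell_pair {S : Finset (Fin n)} {a b s0 δ : ℝ} (ha0 : 0 < a) (ha1 : a < 1) (hs0 : 0 < s0)
    (hb0 : 0 ≤ b) (hb1 : b ≤ 1) (hb : s0 * (1 - a) / 2 ≤ b - (a - s0 * (1 - a)))
    (hδ : 0 < δ) (hδ1 : δ ≤ s0 * (1 - a) ^ 2 / 32) (hs1 : s0 < 1)
    {x y : EuclideanSpace ℝ (Fin n)} {w : EuclideanSpace ℝ S}
    (hx : ‖x‖ = 1) (hy : ‖y‖ = 1) (hxy : ⟪x, y⟫_ℝ ≤ a)
    (hxs : s0 ≤ ‖pS S x‖ ^ 2) (hys : s0 ≤ ‖pS S y‖ ^ 2)
    (hxw : dist (pS S x) w < δ) (hyw : dist (pS S y) w < δ) :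
    0 < ‖qS S x‖ ∧ 0 < ‖qS S y‖ ∧ ⟪qS S x, qS S y⟫_ℝ ≤ b * (‖qS S x‖ * ‖qS S y‖) := by
  have h1 := norm_split S x
  have h2 := norm_split S y
  rw [hx] at h1
  rw [hy] at h2
  have h3 := inner_split S x y
  have h4 := norm_sub_sq_real (pS S x) (pS S y)
  have h5 : ‖pS S x - pS S y‖ < 2 * δ := by
    rw [← dist_eq_norm]
    calc dist (pS S x) (pS S y) ≤ dist (pS S x) w + dist (pS S y) w := dist_triangle_right _ _ _
      _ < 2 * δ := by linarith
  exact cell_real ha0 ha1 hs0 hb0 hb1 hb hδ hδ1 hs1 (norm_nonneg _) (norm_nonneg _)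
    (norm_nonneg _) (norm_nonneg _) (norm_nonneg (pS S x - pS S y)) (by linarith) (by linarith)
    hxs hys h5 ((abs_norm_sub_norm_le _ _).trans_lt h5)
    (abs_le.1 (abs_real_inner_le_norm (qS S x) (qS S y))).1 (by linarith)

open Classical in
/-- codes of angle `θ` and of a slightly larger angle `φ` -/
theorem right_ineq [NeZero n] {θ φ s0 δ : ℝ} {m : ℕ} (hm : 0 < m) (hsm : s0 = 1 / (2 * m))
    (hsθ : 0 < Real.sin (θ / 2)) (hsφ : 0 < Real.sin (φ / 2))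
    (ha0 : 0 < Real.cos θ) (hb0 : 0 ≤ Real.cos φ)
    (hb : s0 * (1 - Real.cos θ) / 2 ≤ Real.cos φ - (Real.cos θ - s0 * (1 - Real.cos θ)))
    (hδ : 0 < δ) (hδ1 : δ ≤ s0 * (1 - Real.cos θ) ^ 2 / 32) :
    (sphMax n θ : ℝ) * s0 * (δ / 2) ^ (n / m + 1) ≤ sphMax n φ := by
  have ha1 : Real.cos θ < 1 := by rw [cos_eq]; nlinarith
  have hb1 : Real.cos φ < 1 := by rw [cos_eq]; nlinarith
  have hm0 : (1 : ℝ) ≤ m := by exact_mod_cast hm
  have hs0 : 0 < s0 := by rw [hsm]; positivity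
  have hs1 : s0 < 1 := by
    rw [hsm, div_lt_one (by positivity)]; linarith
  have hδ1' : δ ≤ 1 := by nlinarith
  obtain ⟨P, hP, hPc⟩ := Nat.sSup_mem (sph_nonempty n θ) (sph_bdd hsθ)
  change P.card = sphMax n θ at hPc
  obtain ⟨S, hS, hSP⟩ := exists_block hm P hP.1
  rw [← hsm] at hSP
  set X := P.filter (fun x => s0 ≤ ‖pS S x‖ ^ 2) with hX
  obtain ⟨w, hw⟩ := exists_dense_ball X (pS S) (fun x hx => by
    have h1 := norm_split S x
    rw [hP.1 x (Finset.mem_filter.1 hx).1] at h1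
    nlinarith [norm_nonneg (pS S x), sq_nonneg ‖qS S x‖]) hδ hδ1'
  set Y := X.filter (fun x => dist (pS S x) w < δ) with hY
  have hfr : Module.finrank ℝ (EuclideanSpace ℝ S) ≤ n / m + 1 := by
    rw [finrank_euclideanSpace, Fintype.card_coe]
    exact hS
  have h1 : (sphMax n θ : ℝ) * s0 * (δ / 2) ^ (n / m + 1) ≤ Y.card := by
    refine le_trans ?_ hw
    rw [← hPc]
    apply mul_le_mul hSP _ (by positivity) (by positivity)
    exact pow_le_pow_of_le_one (by positivity) (by linarith) hfr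
  refine h1.trans ?_
  rcases le_or_gt Y.card 1 with hY1 | hY1
  · exact_mod_cast hY1.trans (sphMax_one_le hsφ)
  -- at least two points
  have hmem : ∀ x ∈ Y, ‖x‖ = 1 ∧ s0 ≤ ‖pS S x‖ ^ 2 ∧ dist (pS S x) w < δ ∧ x ∈ P := by
    intro x hx
    obtain ⟨hx1, hx2⟩ := Finset.mem_filter.1 hx
    obtain ⟨hx3, hx4⟩ := Finset.mem_filter.1 hx1
    exact ⟨hP.1 x hx3, hx4, hx2, hx3⟩
  have hpair : ∀ x ∈ Y, ∀ y ∈ Y, x ≠ y → 0 < ‖qS S x‖ ∧ 0 < ‖qS S y‖ ∧
      ⟪qS S x, qS S y⟫_ℝ ≤ Real.cos φ * (‖qS S x‖ * ‖qS S y‖) := by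
    intro x hx y hy hxy
    obtain ⟨x1, x2, x3, x4⟩ := hmem x hx
    obtain ⟨y1, y2, y3, y4⟩ := hmem y hy
    exact cell_pair ha0 ha1 hs0 hb0 hb1.le hb hδ hδ1 hs1 x1 y1
      (hP.2 x x4 y y4 hxy) x2 y2 x3 y3
  have hpos : ∀ x ∈ Y, 0 < ‖qS S x‖ := by
    intro x hx
    obtain ⟨y, hy, hyx⟩ := Finset.exists_mem_ne hY1 x
    exact (hpair x hx y hy hyx.symm).1
  set ν : EuclideanSpace ℝ (Fin n) → EuclideanSpace ℝ (Fin n) := fun x => ‖qS S x‖⁻¹ • qS S x
    with hν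
  have hν1 : ∀ x ∈ Y, ‖ν x‖ = 1 := by
    intro x hx
    rw [hν]
    simp only
    rw [norm_smul, norm_inv, norm_norm, inv_mul_cancel₀ (hpos x hx).ne']
  have hνin : ∀ x ∈ Y, ∀ y ∈ Y, x ≠ y → ⟪ν x, ν y⟫_ℝ ≤ Real.cos φ := by
    intro x hx y hy hxy
    obtain ⟨h2, h3, h4⟩ := hpair x hx y hy hxy
    rw [hν]
    simp only
    rw [inner_smul_left, inner_smul_right, conj_trivial, ← mul_assoc, ← mul_inv,
      inv_mul_eq_div, div_le_iff₀ (by positivity)]
    exact h4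
  have hinj : Set.InjOn ν (Y : Set (EuclideanSpace ℝ (Fin n))) := by
    intro x hx y hy hxy
    by_contra hne
    have h2 := hνin x hx y hy hne
    rw [← hxy, real_inner_self_eq_norm_sq, hν1 x hx] at h2
    linarith
  have hcode : IsSphCode n φ (Y.image ν) := by
    constructor
    · intro u hu
      obtain ⟨x, hx, rfl⟩ := Finset.mem_image.1 hu
      exact hν1 x hx
    · intro u hu v hv huv
      obtain ⟨x, hx, rfl⟩ := Finset.mem_image.1 hu
      obtain ⟨y, hy, rfl⟩ := Finset.mem_image.1 hv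
      exact hνin x hx y hy (fun h => huv (by rw [h]))
  have h2 := le_sphMax hsφ hcode
  rw [Finset.card_image_of_injOn hinj] at h2
  exact_mod_cast h2

end Pool.Agent.H85T
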