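import Pool.Agent.H85T.Conv

/-! The equivalences, for all large dimensions and for infinitely many dimensions. -/

open MeasureTheory Metric Set Filter
open scoped Topology ENNReal InnerProductSpace
open Pool.Agent.H818R2

namespace Pool.Agent.H85T

open Pool.Agent.H85G

/-- the codes in the caps of radius `α` have at most `B` points -/
def CapBound (n : ℕ) (θ α B : ℝ) : Prop :=
  ∀ (I : Finset (EuclideanSpace ℝ (Fin n))) (e : EuclideanSpace ℝ (Fin n)), IsSphCode n θ I →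
    ‖e‖ = 1 → (∀ x ∈ I, Real.cos α ≤ ⟪x, e⟫_ℝ) → (I.card : ℝ) ≤ B

/-- the volume of the union of the caps of radius `θ` about the points of a code -/
def NbhBound (n : ℕ) (θ κ : ℝ) : Prop :=
  ∀ I : Finset (EuclideanSpace ℝ (Fin n)), IsSphCode n θ I →
    (I.card : ℝ) * (Real.sin θ ^ n * vb (EuclideanSpace ℝ (Fin n))) ≤
      (2 : ℝ) ^ (κ * n) * volume.real (nbh θ I ∩ ball 0 1)

section
variable {θ : ℝ} (h0 : 0 < θ) (h1 : θ < Real.pi / 2)
  {F : (ℕ → Prop) → Prop} (hF : ∀ P Q : ℕ → Prop, (∀ᶠ n in atTop, P n → Q n) → F P → F Q)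
include h0 h1

include hF in
theorem a_b (h : ∀ κ : ℝ, 0 < κ → F fun n => codeRate θ n < -Real.logb 2 (Real.sin θ) + κ) :
    ∀ φ : ℝ, θ < φ → φ < Real.pi / 2 → ∀ κ : ℝ, 0 < κ →
      F fun n => codeRate φ n < bnd θ φ + κ := by
  intro φ hφ1 hφ2 κ hκ
  have hcos : Real.cos φ < Real.cos θ :=
    Real.cos_lt_cos_of_nonneg_of_le_pi_div_two h0.le hφ2.le hφ1
  obtain ⟨d, hd, hkey⟩ := key_angle h0 h1 hcos hκ
  refine hF _ _ ?_ (h d hd)
  filter_upwards [hkey, eventually_ge_atTop 2] with n hn hn2 hr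
  by_contra hcon
  push Not at hcon
  have hpos := sphMax_pos hn2 (sin_half (h0.trans hφ1) hφ2)
  have := hn (by exact_mod_cast hpos) hcon
  linarith

include hF in
theorem a_c (h : ∀ κ : ℝ, 0 < κ → F fun n => codeRate θ n < -Real.logb 2 (Real.sin θ) + κ) :
    ∀ α : ℝ, 0 < α → α < Real.pi / 2 → ∀ κ : ℝ, 0 < κ →
      F fun n => CapBound n θ α ((2 : ℝ) ^ (κ * n) *
        (1 + (Real.sin α / Real.tan θ) ^ 2) ^ ((n : ℝ) / 2)) := by
  intro α hα1 hα2 κ hκ
  obtain ⟨d, hd, hkey⟩ := key_cap h0 h1 (cos_pos' hα1 hα2) (cos_lt hα1 hα2) hκ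
  refine hF _ _ ?_ (h d hd)
  filter_upwards [hkey] with n hn hr I e hI he hIe
  by_contra hcon
  push Not at hcon
  rw [← thr_pow h0 h1] at hcon
  have := hn I e hI he hIe hcon.le
  linarith

include hF in
theorem a_d (h : ∀ κ : ℝ, 0 < κ → F fun n => codeRate θ n < -Real.logb 2 (Real.sin θ) + κ) :
    ∀ κ : ℝ, 0 < κ → F fun n => NbhBound n θ κ := by
  intro κ hκ
  refine hF _ _ ?_ (h κ hκ)
  filter_upwards [eventually_ge_atTop 2] with n hn2 hr I hI
  by_contra hcon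
  push Not at hcon
  have hI0 : I.Nonempty := by
    by_contra hne
    rw [Finset.not_nonempty_iff_eq_empty] at hne
    rw [hne] at hcon
    simp only [Finset.card_empty, Nat.cast_zero, zero_mul] at hcon
    have : 0 ≤ (2 : ℝ) ^ (κ * n) * volume.real (nbh θ ∅ ∩ ball (0 : EuclideanSpace ℝ (Fin n)) 1) :=
      mul_nonneg (by positivity) measureReal_nonneg
    linarith
  have := key_nbh h0 h1 hn2 hI hcon.le hI0
  linarith

include hF in
theorem b_a (h : ∀ φ : ℝ, θ < φ → φ < Real.pi / 2 → ∀ κ : ℝ, 0 < κ →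
      F fun n => codeRate φ n < bnd θ φ + κ) :
    ∀ κ : ℝ, 0 < κ → F fun n => codeRate θ n < -Real.logb 2 (Real.sin θ) + κ := by
  intro κ hκ
  obtain ⟨φ, hφ1, hφ2, hkey⟩ := key_conv h0 h1 hκ
  refine hF _ _ ?_ (h φ hφ1 hφ2 (κ / 2) (by linarith))
  filter_upwards [hkey] with n hn hr
  by_contra hcon
  push Not at hcon
  have := hn hcon
  linarith

include hF in
theorem c_a (hsh : ∀ P : ℕ → Prop, F P → F fun n => P (n + 1))
    (h : ∀ α : ℝ, 0 < α → α < Real.pi / 2 → ∀ κ : ℝ, 0 < κ →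
      F fun n => CapBound n θ α ((2 : ℝ) ^ (κ * n) *
        (1 + (Real.sin α / Real.tan θ) ^ 2) ^ ((n : ℝ) / 2))) :
    ∀ κ : ℝ, 0 < κ → F fun n => codeRate θ n < -Real.logb 2 (Real.sin θ) + κ := by
  intro κ hκ
  obtain ⟨φ, hφ1, hφ2, hkey⟩ := key_conv h0 h1 hκ
  have hcos : Real.cos φ < Real.cos θ :=
    Real.cos_lt_cos_of_nonneg_of_le_pi_div_two h0.le hφ2.le hφ1
  have hc0 := ca_pos h0 h1 hcos
  have hc1 := ca_lt h0 h1 hcos
  have hlift := key_lift h0 h1 hcos (h0.trans hφ1) hφ2 (κ := κ / 2) (by linarith)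
  have hα0 : 0 < Real.arccos (ca θ φ) := Real.arccos_pos.2 hc1
  have hα1 : Real.arccos (ca θ φ) < Real.pi / 2 := Real.arccos_lt_pi_div_two.2 hc0
  have hcα : Real.cos (Real.arccos (ca θ φ)) = ca θ φ :=
    Real.cos_arccos (by linarith) hc1.le
  refine hF _ _ ?_ (hsh _ (h _ hα0 hα1 (κ / 8) (by linarith)))
  filter_upwards [hkey, hlift] with n hn hl hcap
  by_contra hcon
  push Not at hcon
  obtain ⟨I, e, hI, he, hIe, hIc⟩ := hl (hn hcon)
  have h2 := hcap I e hI he (by rw [hcα]; exact hIe)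
  rw [← thr_pow h0 h1, hcα] at h2
  have h3 := hIc.trans h2
  rw [Real.rpow_le_rpow_left_iff (by norm_num)] at h3
  have h4 : (0 : ℝ) < ((n + 1 : ℕ) : ℝ) := by positivity
  have h5 := le_of_mul_le_mul_right h3 h4
  linarith

include hF in
theorem d_a (h : ∀ κ : ℝ, 0 < κ → F fun n => NbhBound n θ κ) :
    ∀ κ : ℝ, 0 < κ → F fun n => codeRate θ n < -Real.logb 2 (Real.sin θ) + κ := by
  intro κ hκ
  refine hF _ _ ?_ (h (κ / 2) (by linarith))
  filter_upwards [eventually_ge_atTop 2] with n hn2 hN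
  by_contra hcon
  push Not at hcon
  have hn0 : (0 : ℝ) < n := by
    have : 0 < n := by omega
    exact_mod_cast this
  obtain ⟨I, hI, hIc, h2⟩ := key_nbh_conv h0 h1 hn2 hcon
  have h3 := h2.trans (hN I hI)
  have h4 := hN I hI
  have hpos := sphMax_pos hn2 (sin_half h0 h1)
  rw [hIc] at h4
  have hvb : 0 < vb (EuclideanSpace ℝ (Fin n)) := by
    have : NeZero n := ⟨by omega⟩
    exact vb_pos
  have hs := sin_pos h0 h1
  have h5 : 0 < (2 : ℝ) ^ (κ / 2 * n) * volume.real (nbh θ I ∩ ball 0 1) :=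
    lt_of_lt_of_le (by positivity) h4
  have h6 : 0 < volume.real (nbh θ I ∩ ball (0 : EuclideanSpace ℝ (Fin n)) 1) :=
    pos_of_mul_pos_right h5 (by positivity)
  have h7 := le_of_mul_le_mul_right h3 h6
  rw [Real.rpow_le_rpow_left_iff (by norm_num)] at h7
  have h8 := le_of_mul_le_mul_right h7 hn0
  linarith

omit h1 in
lemma ev_iff {b : ℝ} (h1 : θ < Real.pi / 2) : limsup (codeRate θ) atTop ≤ b ↔
    ∀ κ : ℝ, 0 < κ → ∀ᶠ n : ℕ in atTop, codeRate θ n < b + κ := by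
  constructor
  · intro h κ hκ
    exact eventually_lt_of_limsup_lt (by linarith) (bdd_above h0 h1)
  · intro h
    apply le_of_forall_pos_le_add
    intro κ hκ
    apply limsup_le_of_le bdd_below.isCoboundedUnder_le
    filter_upwards [h κ hκ] with n hn
    exact hn.le

omit h1 in
lemma fr_iff {b : ℝ} (h1 : θ < Real.pi / 2) : liminf (codeRate θ) atTop ≤ b ↔
    ∀ κ : ℝ, 0 < κ → ∃ᶠ n : ℕ in atTop, codeRate θ n < b + κ := by
  constructor
  · intro h κ hκ
    exact frequently_lt_of_liminf_lt (bdd_above h0 h1).isCoboundedUnder_ge (by linarith)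
  · intro h
    apply le_of_forall_pos_le_add
    intro κ hκ
    apply liminf_le_of_frequently_le _ bdd_below
    exact (h κ hκ).mono fun n hn => hn.le

omit h1 in
lemma sup_iff (h1 : θ < Real.pi / 2) : limsup (codeRate θ) atTop = -Real.logb 2 (Real.sin θ) ↔
    ∀ κ : ℝ, 0 < κ → ∀ᶠ n : ℕ in atTop, codeRate θ n < -Real.logb 2 (Real.sin θ) + κ := by
  rw [← ev_iff h0 h1]
  exact ⟨fun h => h.le, fun h => le_antisymm h ((le_liminf h0 h1).trans (liminf_le_limsup' h0 h1))⟩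

omit h1 in
lemma inf_iff (h1 : θ < Real.pi / 2) : liminf (codeRate θ) atTop = -Real.logb 2 (Real.sin θ) ↔
    ∀ κ : ℝ, 0 < κ → ∃ᶠ n : ℕ in atTop, codeRate θ n < -Real.logb 2 (Real.sin θ) + κ := by
  rw [← fr_iff h0 h1]
  exact ⟨fun h => h.le, fun h => le_antisymm h (le_liminf h0 h1)⟩

end

lemma mono_ev : ∀ P Q : ℕ → Prop, (∀ᶠ n in atTop, P n → Q n) →
    (∀ᶠ n in atTop, P n) → ∀ᶠ n in atTop, Q n := by
  intro P Q h hP
  filter_upwards [h, hP] with n h1 h2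
  exact h1 h2

lemma mono_fr : ∀ P Q : ℕ → Prop, (∀ᶠ n in atTop, P n → Q n) →
    (∃ᶠ n in atTop, P n) → ∃ᶠ n in atTop, Q n := by
  intro P Q h hP
  exact (hP.and_eventually h).mono fun n hn => hn.2 hn.1

lemma shift_ev : ∀ P : ℕ → Prop, (∀ᶠ n in atTop, P n) → ∀ᶠ n in atTop, P (n + 1) := by
  intro P hP
  exact (tendsto_add_atTop_nat 1).eventually hP

lemma shift_fr : ∀ P : ℕ → Prop, (∃ᶠ n in atTop, P n) → ∃ᶠ n in atTop, P (n + 1) := by
  intro P hP
  rw [frequently_atTop] at hP ⊢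
  intro a
  obtain ⟨b, hb, hPb⟩ := hP (a + 1)
  refine ⟨b - 1, by omega, ?_⟩
  have : b - 1 + 1 = b := by omega
  rwa [this]

end Pool.Agent.H85T
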