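import Pool.Agent.H85T.Cap
import Pool.Agent.H818R2.Kiss4

/-! Codes of a larger angle, lifted to a cap: the inequality between the maximal sizes of the
spherical codes of two angles. -/

open MeasureTheory Metric Set Filter
open scoped Topology ENNReal InnerProductSpace
open Pool.Agent.H818R2

namespace Pool.Agent.H85T

open Pool.Agent.H85G

variable {n : ℕ}

/-- the lift `(c, s u)` -/
noncomputable def lift (c s : ℝ) (u : EuclideanSpace ℝ (Fin n)) : EuclideanSpace ℝ (Fin (n + 1)) :=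
  WithLp.toLp 2 (Fin.cons c (s • u.ofLp))

/-- the pole -/
noncomputable def pole (n : ℕ) : EuclideanSpace ℝ (Fin (n + 1)) :=
  WithLp.toLp 2 (Fin.cons 1 0)

lemma inner_lift (c s : ℝ) (u v : EuclideanSpace ℝ (Fin n)) :
    ⟪lift c s u, lift c s v⟫_ℝ = c ^ 2 + s ^ 2 * ⟪u, v⟫_ℝ := by
  rw [PiLp.inner_apply, PiLp.inner_apply, Fin.sum_univ_succ, Finset.mul_sum]
  simp [lift]
  apply Finset.sum_congr rfl
  intro i _
  ring

lemma inner_lift_pole (c s : ℝ) (u : EuclideanSpace ℝ (Fin n)) :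
    ⟪lift c s u, pole n⟫_ℝ = c := by
  rw [PiLp.inner_apply, Fin.sum_univ_succ]
  simp [lift, pole]

lemma norm_pole : ‖pole n‖ = 1 := by
  have h : ‖pole n‖ ^ 2 = 1 := by
    rw [← real_inner_self_eq_norm_sq, PiLp.inner_apply, Fin.sum_univ_succ]
    simp [pole]
  have := norm_nonneg (pole n)
  nlinarith

/-- the cosine of the angular radius of the cap to which codes of angle `φ` are lifted -/
noncomputable def ca (θ φ : ℝ) : ℝ := √((Real.cos θ - Real.cos φ) / (1 - Real.cos φ))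

open Classical in
/-- The largest codes of angle `φ`, lifted to the boundary of a cap. -/
theorem lift_code (hn : 0 < n) {θ φ : ℝ} (h0 : 0 < θ) (h1 : θ < Real.pi / 2)
    (hφ : Real.cos φ < Real.cos θ) :
    ∃ I : Finset (EuclideanSpace ℝ (Fin (n + 1))), IsSphCode (n + 1) θ I ∧
      (∀ x ∈ I, ca θ φ ≤ ⟪x, pole n⟫_ℝ) ∧ I.card = sphMax n φ := by
  have : NeZero n := ⟨by omega⟩
  have hs : 0 < Real.sin (θ / 2) :=
    Real.sin_pos_of_pos_of_lt_pi (by linarith) (by linarith [Real.pi_pos])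
  have ha1 : Real.cos θ < 1 := by rw [cos_eq]; nlinarith
  have hb1 : Real.cos φ < 1 := hφ.trans ha1
  set a := Real.cos θ with had
  set b := Real.cos φ with hbd
  set c := ca θ φ with hcd
  have hc0 : 0 ≤ c := Real.sqrt_nonneg _
  have hcsq : c ^ 2 = (a - b) / (1 - b) := Real.sq_sqrt (div_nonneg (by linarith) (by linarith))
  have hcc : 1 - c ^ 2 = (1 - a) / (1 - b) := by
    rw [hcsq]
    have : (1 - b) ≠ 0 := by linarith
    field_simp
    ring
  have hc2 : 0 < 1 - c ^ 2 := by rw [hcc]; exact div_pos (by linarith) (by linarith)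
  obtain ⟨U, hU, hUc⟩ : ∃ U : Finset (EuclideanSpace ℝ (Fin n)), IsSphCode n φ U ∧
      U.card = sphMax n φ := by
    have hbdd : BddAbove {m | ∃ P : Finset (EuclideanSpace ℝ (Fin n)),
        IsSphCode n φ P ∧ P.card = m} := by
      -- codes of angle `φ` are codes of angle `θ`
      obtain ⟨N, hN⟩ := sph_bdd (d := n) hs
      refine ⟨N, ?_⟩
      rintro m ⟨P, hP, rfl⟩
      exact hN ⟨P, ⟨hP.1, fun x hx y hy hxy => (hP.2 x hx y hy hxy).trans hφ.le⟩, rfl⟩
    obtain ⟨P, hP, hPc⟩ := Nat.sSup_mem (sph_nonempty n φ) hbdd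
    exact ⟨P, hP, hPc⟩
  set s : ℝ := √(1 - c ^ 2) with hsd
  have hs0 : 0 < s := Real.sqrt_pos.2 hc2
  have hssq : s ^ 2 = 1 - c ^ 2 := Real.sq_sqrt hc2.le
  have hnorm : ∀ u ∈ U, ‖lift c s u‖ = 1 := by
    intro u hu
    have h : ‖lift c s u‖ ^ 2 = 1 := by
      rw [← real_inner_self_eq_norm_sq, inner_lift, real_inner_self_eq_norm_sq, hU.1 u hu, hssq]
      ring
    have := norm_nonneg (lift c s u)
    nlinarith
  have hinj : Function.Injective (lift c s : EuclideanSpace ℝ (Fin n) → _) := by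
    intro u v huv
    have h2 : ∀ i, u.ofLp i = v.ofLp i := by
      intro i
      have h3 := congrArg (fun z => (WithLp.ofLp z) i.succ) huv
      simp only [lift, Fin.cons_succ, Pi.smul_apply, smul_eq_mul] at h3
      exact mul_left_cancel₀ hs0.ne' h3
    ext i
    exact h2 i
  refine ⟨U.image (lift c s), ⟨?_, ?_⟩, ?_, ?_⟩
  · intro x hx
    obtain ⟨u, hu, rfl⟩ := Finset.mem_image.1 hx
    exact hnorm u hu
  · intro x hx y hy hxy
    obtain ⟨u, hu, rfl⟩ := Finset.mem_image.1 hx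
    obtain ⟨v, hv, rfl⟩ := Finset.mem_image.1 hy
    have huv : u ≠ v := fun h => hxy (by rw [h])
    have h2 := hU.2 u hu v hv huv
    rw [inner_lift, hssq]
    have h3 : (1 - c ^ 2) * ⟪u, v⟫_ℝ ≤ (1 - c ^ 2) * b := mul_le_mul_of_nonneg_left h2 hc2.le
    have h4 : c ^ 2 + (1 - c ^ 2) * b = a := by
      rw [hcc, hcsq]
      have : (1 - b) ≠ 0 := by linarith
      field_simp
      ring
    linarith
  · intro x hx
    obtain ⟨u, hu, rfl⟩ := Finset.mem_image.1 hx
    rw [inner_lift_pole]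
  · rw [Finset.card_image_of_injective _ hinj, hUc]

/-- The inequality between the codes of two angles, in consecutive dimensions. -/
theorem angle_succ (hn : 0 < n) {θ φ k : ℝ} (h0 : 0 < θ) (h1 : θ < Real.pi / 2)
    (hφ : Real.cos φ < Real.cos θ) (hk : 0 ≤ k) (hkc : k ≤ ca θ φ * Real.cos θ)
    (hS : k ^ 2 * (1 - Real.cos φ) < (1 - Real.cos θ) * Real.sin θ ^ 2) :
    (sphMax n φ : ℝ) ≤ 3 * (n + 2) * sphMax (n + 1) θ *
      (√(1 - (ca θ φ * Real.cos θ - k) ^ 2) ^ n +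
      sphMax n φ * √(Real.sin θ ^ 2 - k ^ 2 * (1 - Real.cos φ) / (1 - Real.cos θ)) ^ n) := by
  have ha : 0 < Real.cos θ := Real.cos_pos_of_mem_Ioo ⟨by linarith [Real.pi_pos], h1⟩
  have hs : 0 < Real.sin (θ / 2) :=
    Real.sin_pos_of_pos_of_lt_pi (by linarith) (by linarith [Real.pi_pos])
  have ha1 : Real.cos θ < 1 := by rw [cos_eq]; nlinarith
  have hb1 : Real.cos φ < 1 := hφ.trans ha1
  have hsc := Real.sin_sq_add_cos_sq θ
  obtain ⟨I, hcode, hpole, hcard⟩ := lift_code hn h0 h1 hφ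
  set a := Real.cos θ with had
  set b := Real.cos φ with hbd
  set c := ca θ φ with hcd
  have hc0 : 0 ≤ c := Real.sqrt_nonneg _
  have hcsq : c ^ 2 = (a - b) / (1 - b) := Real.sq_sqrt (div_nonneg (by linarith) (by linarith))
  have hcc : 1 - c ^ 2 = (1 - a) / (1 - b) := by
    rw [hcsq]
    have : (1 - b) ≠ 0 := by linarith
    field_simp
    ring
  have hc2 : 0 < 1 - c ^ 2 := by rw [hcc]; exact div_pos (by linarith) (by linarith)
  have hc1 : c < 1 := by nlinarith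
  have hkk : k ^ 2 / (1 - c ^ 2) = k ^ 2 * (1 - b) / (1 - a) := by
    rw [hcc, div_div_eq_mul_div]
  have hS' : a ^ 2 + k ^ 2 / (1 - c ^ 2) < 1 := by
    have : k ^ 2 / (1 - c ^ 2) < Real.sin θ ^ 2 := by
      rw [hkk, div_lt_iff₀ (by linarith)]
      linarith
    linarith
  have h2 := cap_ineq (Nat.succ_pos n) h0 h1 hc0 hc1 hk hkc hS' norm_pole hcode hpole
  rw [hcard] at h2
  have e1 : 1 - (a ^ 2 + k ^ 2 / (1 - c ^ 2)) =
      Real.sin θ ^ 2 - k ^ 2 * (1 - b) / (1 - a) := by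
    rw [hkk]; linarith
  rw [e1] at h2
  refine h2.trans (le_of_eq ?_)
  push_cast
  rw [← had, Nat.succ_eq_add_one]
  ring

/-- The ratio of the maximal sizes in consecutive dimensions. -/
theorem exists_ratio {θ : ℝ} (h0 : 0 < θ) (h1 : θ < Real.pi / 2) :
    ∃ K : ℝ, 0 < K ∧ ∀ n : ℕ, 4 ≤ n → (sphMax (n + 1) θ : ℝ) ≤ K * sphMax n θ := by
  obtain ⟨m, hm, h7⟩ := exists_m h0 h1
  refine ⟨8 * m, by positivity, fun n hn => ?_⟩
  exact_mod_cast sphMax_succ_le h0 h1 hm h7 hn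

lemma add_two_le {n : ℕ} (hn : 4 ≤ n) : (n : ℝ) + 2 ≤ 3 / 2 * n := by
  have : (4 : ℝ) ≤ n := by exact_mod_cast hn
  linarith

/-- The inequality between the codes of two angles. -/
theorem angle_ineq {θ : ℝ} (h0 : 0 < θ) (h1 : θ < Real.pi / 2) :
    ∃ K : ℝ, 0 < K ∧ ∀ n : ℕ, 4 ≤ n → ∀ φ k : ℝ, Real.cos φ < Real.cos θ → 0 ≤ k →
      k ≤ ca θ φ * Real.cos θ →
      k ^ 2 * (1 - Real.cos φ) < (1 - Real.cos θ) * Real.sin θ ^ 2 →
      (sphMax n φ : ℝ) ≤ K * n * sphMax n θ *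
      (√(1 - (ca θ φ * Real.cos θ - k) ^ 2) ^ n +
      sphMax n φ * √(Real.sin θ ^ 2 - k ^ 2 * (1 - Real.cos φ) / (1 - Real.cos θ)) ^ n) := by
  obtain ⟨K, hK, hr⟩ := exists_ratio h0 h1
  refine ⟨9 / 2 * K, by positivity, fun n hn φ k hφ hk hkc hS => ?_⟩
  refine (angle_succ (by omega) h0 h1 hφ hk hkc hS).trans ?_
  apply mul_le_mul_of_nonneg_right _ (by positivity)
  calc 3 * ((n : ℝ) + 2) * sphMax (n + 1) θ ≤ 3 * (3 / 2 * n) * (K * sphMax n θ) :=
        mul_le_mul (mul_le_mul_of_nonneg_left (add_two_le hn) (by norm_num)) (hr n hn)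
          (by positivity) (by positivity)
    _ = _ := by ring

/-- The inequality for kissing numbers. -/
theorem kissing_ineq {n : ℕ} (hn : 4 ≤ n) {φ k : ℝ} (hφ : Real.cos φ < 1 / 2) (hk : 0 ≤ k)
    (hkc : 2 * k ≤ ca (Real.pi / 3) φ) (hS : k ^ 2 * (1 - Real.cos φ) < 3 / 8) :
    (sphMax n φ : ℝ) ≤ 72 * n * kissing n *
      (√(1 - (ca (Real.pi / 3) φ / 2 - k) ^ 2) ^ n +
      sphMax n φ * √(3 / 4 - 2 * k ^ 2 * (1 - Real.cos φ)) ^ n) := by
  have h3 : Real.sin (Real.pi / 3) ^ 2 = 3 / 4 := by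
    rw [Real.sin_pi_div_three, div_pow, Real.sq_sqrt (by norm_num)]; norm_num
  have hpi := Real.pi_pos
  have h := angle_succ (n := n) (by omega) (θ := Real.pi / 3) (φ := φ) (k := k) (by positivity)
    (by linarith) (by rw [Real.cos_pi_div_three]; exact hφ) hk
    (by rw [Real.cos_pi_div_three]; linarith)
    (by rw [Real.cos_pi_div_three, h3]; linarith)
  rw [Real.cos_pi_div_three, h3] at h
  have e1 : (3 / 4 - k ^ 2 * (1 - Real.cos φ) / (1 - 1 / 2) : ℝ) =
    3 / 4 - 2 * k ^ 2 * (1 - Real.cos φ) := by ring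
  have e2 : ca (Real.pi / 3) φ * (1 / 2) - k = ca (Real.pi / 3) φ / 2 - k := by ring
  rw [e1, e2] at h
  refine h.trans ?_
  apply mul_le_mul_of_nonneg_right _ (by positivity)
  have hr : (sphMax (n + 1) (Real.pi / 3) : ℝ) ≤ 16 * kissing n := by
    exact_mod_cast kissing_succ_le hn
  calc 3 * ((n : ℝ) + 2) * sphMax (n + 1) (Real.pi / 3) ≤ 3 * (3 / 2 * n) * (16 * kissing n) :=
        mul_le_mul (mul_le_mul_of_nonneg_left (add_two_le hn) (by norm_num)) hr
          (by positivity) (by positivity)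
    _ = _ := by ring

end Pool.Agent.H85T
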