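import Pool.Agent.H85T.Angle

/-! The exponents of spherical codes are continuous from the right in the angle: a large part of a
code of angle `θ` has nearly the same projection on a block of few coordinates; the other
coordinates give a code of a slightly larger angle. -/

open MeasureTheory Metric Set Filter
open scoped Topology ENNReal InnerProductSpace
open Pool.Agent.H818R2

namespace Pool.Agent.H85T

open Pool.Agent.H85G

open Classical in
/-- many of the points `f x` lie in one ball of radius `δ` -/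
lemma exists_dense_ball {α E : Type*} [NormedAddCommGroup E] [InnerProductSpace ℝ E]
    [FiniteDimensional ℝ E] [MeasurableSpace E] [BorelSpace E] (X : Finset α) (f : α → E)
    (hf : ∀ x ∈ X, ‖f x‖ ≤ 1) {δ : ℝ} (hδ : 0 < δ) (hδ1 : δ ≤ 1) :
    ∃ z : E, (X.card : ℝ) * (δ / 2) ^ (Module.finrank ℝ E) ≤
      (X.filter (fun x => dist (f x) z < δ)).card := by
  set g : E → ℕ := fun z => (X.filter (fun x => dist (f x) z < δ)).card with hg
  have hne : (Set.range g).Nonempty := ⟨_, 0, rfl⟩
  have hbdd : BddAbove (Set.range g) := by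
    refine ⟨X.card, ?_⟩
    rintro _ ⟨z, rfl⟩
    exact Finset.card_filter_le _ _
  obtain ⟨z0, hz0⟩ := Nat.sSup_mem hne hbdd
  have hmax : ∀ z, g z ≤ g z0 := fun z => by rw [hz0]; exact le_csSup hbdd ⟨z, rfl⟩
  refine ⟨z0, ?_⟩
  have hvb : 0 < vb E := vb_pos
  have h1 : ∑ x ∈ X, volume (ball (f x) δ) ≤ (g z0 : ℝ≥0∞) * volume (ball (0 : E) 2) := by
    calc ∑ x ∈ X, volume (ball (f x) δ)
        = ∑ x ∈ X, ∫⁻ z in ball (0 : E) 2, (ball (f x) δ).indicator 1 z := by
          apply Finset.sum_congr rfl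
          intro x hx
          rw [lintegral_indicator_one measurableSet_ball,
            Measure.restrict_apply measurableSet_ball]
          congr 1
          apply (inter_eq_left.2 _).symm
          intro z hz
          rw [mem_ball_zero_iff]
          rw [mem_ball, dist_eq_norm] at hz
          have h2 := hf x hx
          have h3 : ‖z‖ ≤ ‖z - f x‖ + ‖f x‖ := by
            simpa using norm_add_le (z - f x) (f x)
          linarith
      _ = ∫⁻ z in ball (0 : E) 2, ∑ x ∈ X, (ball (f x) δ).indicator 1 z := by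
          rw [lintegral_finsetSum]
          intro x _
          exact measurable_one.indicator measurableSet_ball
      _ ≤ ∫⁻ _z in ball (0 : E) 2, (g z0 : ℝ≥0∞) := by
          apply lintegral_mono
          intro z
          have h2 : ∑ x ∈ X, (ball (f x) δ).indicator (1 : E → ℝ≥0∞) z = (g z : ℝ≥0∞) := by
            rw [hg]
            simp only [Finset.card_filter, Nat.cast_sum]
            apply Finset.sum_congr rfl
            intro x _
            rw [indicator_apply]
            simp only [mem_ball, Pi.one_apply, dist_comm z (f x)]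
            split_ifs <;> simp
          change ∑ x ∈ X, (ball (f x) δ).indicator (1 : E → ℝ≥0∞) z ≤ _
          rw [h2]
          exact Nat.cast_le.2 (hmax z)
      _ = _ := by rw [setLIntegral_const]
  have h2 : ∀ x ∈ X, volume (ball (f x) δ) = ENNReal.ofReal (δ ^ (Module.finrank ℝ E) * vb E) := by
    intro x _
    rw [← vol_ball (f x) hδ, measureReal_def, ENNReal.ofReal_toReal measure_ball_lt_top.ne]
  rw [Finset.sum_congr rfl h2, Finset.sum_const, nsmul_eq_mul] at h1
  have h3 := ENNReal.toReal_mono (ENNReal.mul_ne_top (ENNReal.natCast_ne_top _)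
    measure_ball_lt_top.ne) h1
  rw [ENNReal.toReal_mul, ENNReal.toReal_mul, ENNReal.toReal_natCast, ENNReal.toReal_natCast,
    ENNReal.toReal_ofReal (by positivity), ← measureReal_def, vol_ball _ (by norm_num)] at h3
  have h4 : (X.card : ℝ) * δ ^ (Module.finrank ℝ E) ≤ g z0 * 2 ^ (Module.finrank ℝ E) := by
    have : ((X.card : ℝ) * δ ^ (Module.finrank ℝ E)) * vb E ≤
        (g z0 * 2 ^ (Module.finrank ℝ E)) * vb E := by
      refine le_trans (le_of_eq (by ring)) (h3.trans (le_of_eq (by ring)))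
    exact le_of_mul_le_mul_right this hvb
  rw [div_pow, mul_div_assoc', div_le_iff₀ (by positivity)]
  exact h4

variable {n : ℕ}

/-- the coordinates in `S` -/
noncomputable def pS (S : Finset (Fin n)) (x : EuclideanSpace ℝ (Fin n)) : EuclideanSpace ℝ S :=
  WithLp.toLp 2 (fun i : S => x.ofLp i)

/-- the coordinates outside of `S` -/
noncomputable def qS (S : Finset (Fin n)) (x : EuclideanSpace ℝ (Fin n)) :
    EuclideanSpace ℝ (Fin n) :=
  WithLp.toLp 2 (fun i => if i ∈ S then 0 else x.ofLp i)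

lemma inner_split (S : Finset (Fin n)) (x y : EuclideanSpace ℝ (Fin n)) :
    ⟪pS S x, pS S y⟫_ℝ + ⟪qS S x, qS S y⟫_ℝ = ⟪x, y⟫_ℝ := by
  rw [PiLp.inner_apply, PiLp.inner_apply, PiLp.inner_apply]
  simp only [pS, qS]
  have h1 : ∑ i : S, ⟪x.ofLp i, y.ofLp i⟫_ℝ = ∑ i, if i ∈ S then ⟪x.ofLp i, y.ofLp i⟫_ℝ else 0 := by
    rw [Finset.sum_ite_mem, Finset.univ_inter]
    exact Finset.sum_coe_sort S (fun i => ⟪x.ofLp i, y.ofLp i⟫_ℝ)
  rw [h1, ← Finset.sum_add_distrib]
  apply Finset.sum_congr rfl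
  intro i _
  split_ifs <;> simp

lemma norm_split (S : Finset (Fin n)) (x : EuclideanSpace ℝ (Fin n)) :
    ‖pS S x‖ ^ 2 + ‖qS S x‖ ^ 2 = ‖x‖ ^ 2 := by
  rw [← real_inner_self_eq_norm_sq, ← real_inner_self_eq_norm_sq, ← real_inner_self_eq_norm_sq,
    inner_split]

lemma norm_pS_sq (S : Finset (Fin n)) (x : EuclideanSpace ℝ (Fin n)) :
    ‖pS S x‖ ^ 2 = ∑ i ∈ S, x.ofLp i ^ 2 := by
  rw [EuclideanSpace.norm_sq_eq]
  simp only [pS, Real.norm_eq_abs, sq_abs]
  exact Finset.sum_coe_sort S (fun i => x.ofLp i ^ 2)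

/-- the block of coordinates number `j` -/
def blk (n w j : ℕ) : Finset (Fin n) := Finset.univ.filter (fun i : Fin n => i.val / w = j)

lemma blk_card (n j : ℕ) {w : ℕ} (hw : 0 < w) : (blk n w j).card ≤ w := by
  have h : (blk n w j).card ≤ (Finset.range w).card := by
    apply Finset.card_le_card_of_injOn (fun i => i.val % w)
    · intro i _
      simp only [Finset.coe_range, mem_Iio]
      exact Nat.mod_lt _ hw
    · intro i hi k hk hik
      simp only [blk, Finset.coe_filter, Finset.mem_univ, true_and, mem_ofPred_eq] at hi hk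
      have h1 := Nat.div_add_mod i.val w
      have h2 := Nat.div_add_mod k.val w
      have h3 : i.val % w = k.val % w := hik
      apply Fin.ext
      rw [← h1, ← h2, hi, hk, h3]
  rwa [Finset.card_range] at h

lemma blk_sum (x : EuclideanSpace ℝ (Fin n)) {m : ℕ} (hm : 0 < m) :
    ∑ j ∈ Finset.range m, ‖pS (blk n (n / m + 1) j) x‖ ^ 2 = ‖x‖ ^ 2 := by
  rw [EuclideanSpace.norm_sq_eq, Finset.sum_congr rfl (fun j _ => norm_pS_sq _ x)]
  simp only [Real.norm_eq_abs, sq_abs, blk]
  apply Finset.sum_fiberwise_of_maps_to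
  intro i _
  rw [Finset.mem_range]
  have h1 : n < m * (n / m + 1) := Nat.lt_mul_div_succ n hm
  exact (Nat.div_lt_iff_lt_mul (Nat.succ_pos _)).2 (i.2.trans h1)

open Classical in
/-- a block which carries a fixed part of the norm of many points -/
lemma exists_block {m : ℕ} (hm : 0 < m) (P : Finset (EuclideanSpace ℝ (Fin n)))
    (hP : ∀ x ∈ P, ‖x‖ = 1) :
    ∃ S : Finset (Fin n), S.card ≤ n / m + 1 ∧
      (P.card : ℝ) * (1 / (2 * m)) ≤
        (P.filter (fun x => 1 / (2 * (m : ℝ)) ≤ ‖pS S x‖ ^ 2)).card := by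
  have hm0 : (0 : ℝ) < m := by exact_mod_cast hm
  have h1 : ∑ j ∈ Finset.range m, ∑ x ∈ P, ‖pS (blk n (n / m + 1) j) x‖ ^ 2 = P.card := by
    rw [Finset.sum_comm]
    rw [Finset.sum_congr rfl (fun x hx => by rw [blk_sum x hm, hP x hx])]
    simp
  obtain ⟨j, hj, hjs⟩ : ∃ j ∈ Finset.range m, (P.card : ℝ) / m ≤
      ∑ x ∈ P, ‖pS (blk n (n / m + 1) j) x‖ ^ 2 := by
    by_contra hcon
    push Not at hcon
    have h2 : ∑ j ∈ Finset.range m, ∑ x ∈ P, ‖pS (blk n (n / m + 1) j) x‖ ^ 2 <
        ∑ _j ∈ Finset.range m, (P.card : ℝ) / m :=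
      Finset.sum_lt_sum_of_nonempty (by rw [Finset.nonempty_range_iff]; omega) hcon
    rw [h1, Finset.sum_const, Finset.card_range, nsmul_eq_mul] at h2
    have : (m : ℝ) * (P.card / m) = P.card := by field_simp
    linarith
  set S := blk n (n / m + 1) j with hS
  refine ⟨S, blk_card n j (Nat.succ_pos _), ?_⟩
  have hle : ∀ x ∈ P, ‖pS S x‖ ^ 2 ≤ (if 1 / (2 * (m : ℝ)) ≤ ‖pS S x‖ ^ 2 then 1 else 0) +
      1 / (2 * (m : ℝ)) := by
    intro x hx
    have h3 := norm_split S x
    rw [hP x hx] at h3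
    split_ifs with h4
    · have : (0 : ℝ) < 1 / (2 * m) := by positivity
      nlinarith [sq_nonneg ‖qS S x‖]
    · push Not at h4
      linarith
  have h2 := Finset.sum_le_sum hle
  rw [Finset.sum_add_distrib, Finset.sum_const, nsmul_eq_mul] at h2
  have h3 : ∑ x ∈ P, (if 1 / (2 * (m : ℝ)) ≤ ‖pS S x‖ ^ 2 then (1 : ℝ) else 0) =
      (P.filter (fun x => 1 / (2 * (m : ℝ)) ≤ ‖pS S x‖ ^ 2)).card := by
    rw [Finset.card_filter]
    push_cast
    rfl
  rw [h3] at h2
  have h4 : (P.card : ℝ) / m = P.card * (1 / (2 * m)) + P.card * (1 / (2 * m)) := by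
    field_simp; ring
  linarith

end Pool.Agent.H85T
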