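import Pool.Agent.H85G.Avg
import Pool.Agent.H85G.Lin

/-! Codes inside a cap: the volume of the neighbourhood of a code all of whose points are close to
one point `e`. -/

open MeasureTheory Metric Set Filter
open scoped Topology ENNReal InnerProductSpace
open Pool.Agent.H818R2

namespace Pool.Agent.H85T

open Pool.Agent.H85G

variable {n : ℕ}

/-- The points of the cap of radius `θ` about `x` which are far from `e` lie in a smaller cap. -/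
lemma small_cap {x e : V n} (hx : ‖x‖ = 1) (he : ‖e‖ = 1) {a c k : ℝ} (ha : 0 < a)
    (hc0 : 0 ≤ c) (hc1 : c < 1) (hk : 0 ≤ k) (hkc : k ≤ c * a) (hxe : c ≤ ⟪x, e⟫_ℝ) :
    ∃ v : V n, ‖v‖ = 1 ∧ ∀ y : V n, y ≠ 0 → a * ‖y‖ ≤ ⟪x, y⟫_ℝ →
      ⟪e, y⟫_ℝ ≤ (c * a - k) * ‖y‖ → √(a ^ 2 + k ^ 2 / (1 - c ^ 2)) * ‖y‖ ≤ ⟪v, y⟫_ℝ := by
  set t : ℝ := ⟪x, e⟫_ℝ with ht
  set q : ℝ := c * a - k with hq
  have hq0 : 0 ≤ q := by rw [hq]; linarith
  have ht1 : t ≤ 1 := by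
    have := real_inner_le_norm x e
    rwa [hx, he, one_mul] at this
  have hc2 : 0 < 1 - c ^ 2 := by nlinarith
  have hA : 0 < a - q * t := by
    have h1 : q * t ≤ c * a := by
      calc q * t ≤ q * 1 := mul_le_mul_of_nonneg_left ht1 hq0
        _ ≤ c * a := by rw [hq]; linarith
    nlinarith
  have hB : q - a * t ≤ 0 := by
    have : a * c ≤ a * t := mul_le_mul_of_nonneg_left hxe ha.le
    rw [hq]; nlinarith
  set M : ℝ := a ^ 2 + q ^ 2 - 2 * a * q * t with hM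
  set w : V n := (a - q * t) • x + (q - a * t) • e with hw
  have hMpos : 0 < M := by
    have h1 : q < a := by rw [hq]; nlinarith
    have h2 : a * q * t ≤ a * q := by
      have := mul_le_mul_of_nonneg_left ht1 (mul_nonneg ha.le hq0)
      linarith
    nlinarith [sq_nonneg (a - q), mul_pos (sub_pos.2 h1) (sub_pos.2 h1)]
  have hwn : ‖w‖ ^ 2 = (1 - t ^ 2) * M := by
    rw [hw, norm_add_sq_real, norm_smul, norm_smul, hx, he, inner_smul_left, inner_smul_right]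
    simp only [conj_trivial, Real.norm_eq_abs, mul_one, sq_abs]
    rw [← ht, hM]; ring
  have hwy : ∀ y : V n, a * ‖y‖ ≤ ⟪x, y⟫_ℝ → ⟪e, y⟫_ℝ ≤ q * ‖y‖ → M * ‖y‖ ≤ ⟪w, y⟫_ℝ := by
    intro y h1 h2
    rw [hw, inner_add_left, inner_smul_left, inner_smul_left]
    simp only [conj_trivial]
    have e1 := mul_le_mul_of_nonneg_left h1 hA.le
    have e2 := mul_le_mul_of_nonpos_left h2 hB
    rw [hM]
    nlinarith
  rcases eq_or_lt_of_le (norm_nonneg w) with hw0 | hw0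
  · -- degenerate case
    refine ⟨x, hx, fun y hy h1 h2 => ?_⟩
    exfalso
    have h3 := hwy y h1 h2
    have h4 : w = 0 := norm_eq_zero.1 hw0.symm
    rw [h4, inner_zero_left] at h3
    have := mul_pos hMpos (norm_pos_iff.2 hy)
    linarith
  · refine ⟨‖w‖⁻¹ • w, by rw [norm_smul, norm_inv, norm_norm, inv_mul_cancel₀ hw0.ne'],
      fun y hy h1 h2 => ?_⟩
    have h3 := hwy y h1 h2
    rw [inner_smul_left, conj_trivial, inv_mul_eq_div, le_div_iff₀ hw0]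
    have h5 : 0 < 1 - t ^ 2 := by
      by_contra hcon
      push Not at hcon
      have : ‖w‖ ^ 2 ≤ 0 := by rw [hwn]; exact mul_nonpos_of_nonpos_of_nonneg hcon hMpos.le
      nlinarith
    have h6 : k ≤ a * t - q := by
      have : a * c ≤ a * t := mul_le_mul_of_nonneg_left hxe ha.le
      rw [hq]; nlinarith
    have h7 : (a ^ 2 + k ^ 2 / (1 - c ^ 2)) * (1 - t ^ 2) ≤ M := by
      have e1 : k ^ 2 / (1 - c ^ 2) * (1 - t ^ 2) ≤ (a * t - q) ^ 2 := by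
        have e2 : k ^ 2 / (1 - c ^ 2) * (1 - t ^ 2) ≤ k ^ 2 := by
          rw [div_mul_eq_mul_div, div_le_iff₀ hc2]
          apply mul_le_mul_of_nonneg_left _ (sq_nonneg k)
          nlinarith
        exact e2.trans (pow_le_pow_left₀ hk h6 2)
      have e3 : M = a ^ 2 * (1 - t ^ 2) + (a * t - q) ^ 2 := by rw [hM]; ring
      rw [e3, add_mul]
      linarith
    have h8 : √(a ^ 2 + k ^ 2 / (1 - c ^ 2)) * ‖w‖ ≤ M := by
      rw [← Real.sqrt_sq hw0.le, ← Real.sqrt_mul (by positivity), hwn]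
      apply Real.sqrt_le_iff.2 ⟨hMpos.le, ?_⟩
      calc (a ^ 2 + k ^ 2 / (1 - c ^ 2)) * ((1 - t ^ 2) * M)
          = (a ^ 2 + k ^ 2 / (1 - c ^ 2)) * (1 - t ^ 2) * M := by ring
        _ ≤ M * M := mul_le_mul_of_nonneg_right h7 hMpos.le
        _ = M ^ 2 := by ring
    calc √(a ^ 2 + k ^ 2 / (1 - c ^ 2)) * ‖y‖ * ‖w‖
        = √(a ^ 2 + k ^ 2 / (1 - c ^ 2)) * ‖w‖ * ‖y‖ := by ring
      _ ≤ M * ‖y‖ := mul_le_mul_of_nonneg_right h8 (norm_nonneg y)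
      _ ≤ _ := h3

/-- the volume of the neighbourhood of a set of points of a cap -/
lemma nbh_cap_vol (hn : 0 < n) {θ c k : ℝ} {e : V n} (he : ‖e‖ = 1) {I : Finset (V n)}
    (hI : ∀ x ∈ I, ‖x‖ = 1) (ha : 0 < Real.cos θ) (hc0 : 0 ≤ c) (hc1 : c < 1) (hk : 0 ≤ k)
    (hkc : k ≤ c * Real.cos θ) (hS : Real.cos θ ^ 2 + k ^ 2 / (1 - c ^ 2) < 1)
    (hIe : ∀ x ∈ I, c ≤ ⟪x, e⟫_ℝ) :
    volume.real (nbh θ I ∩ ball 0 1) ≤
      (3 * (n + 1) / √(1 - (c * Real.cos θ - k) ^ 2) * √(1 - (c * Real.cos θ - k) ^ 2) ^ n +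
      I.card * (3 * (n + 1) / √(1 - (Real.cos θ ^ 2 + k ^ 2 / (1 - c ^ 2))) *
        √(1 - (Real.cos θ ^ 2 + k ^ 2 / (1 - c ^ 2))) ^ n)) * vb (V n) := by
  classical
  set a : ℝ := Real.cos θ with had
  set q : ℝ := c * a - k with hq
  have hc2 : 0 < 1 - c ^ 2 := by nlinarith
  set Q2 : ℝ := a ^ 2 + k ^ 2 / (1 - c ^ 2) with hQ2
  have hQ0 : 0 < Q2 := by positivity
  have ha1 : a ≤ 1 := Real.cos_le_one θ
  have hq0 : 0 ≤ q := by rw [hq]; linarith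
  have hq1 : q < 1 := by rw [hq]; nlinarith
  have hq2 : 0 < 1 - q ^ 2 := by nlinarith
  have hS2 : 0 < 1 - Q2 := by linarith
  -- choice of the small caps
  have hv : ∀ x : V n, ∃ v : V n, x ∈ I → ‖v‖ = 1 ∧ ∀ y : V n, y ≠ 0 → a * ‖y‖ ≤ ⟪x, y⟫_ℝ →
      ⟪e, y⟫_ℝ ≤ q * ‖y‖ → √Q2 * ‖y‖ ≤ ⟪v, y⟫_ℝ := by
    intro x
    by_cases hx : x ∈ I
    · obtain ⟨v, hv1, hv2⟩ := small_cap (hI x hx) he ha hc0 hc1 hk hkc (hIe x hx)
      exact ⟨v, fun _ => ⟨hv1, hv2⟩⟩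
    · exact ⟨0, fun h => absurd h hx⟩
  choose v hv using hv
  set A : Set (V n) := {y : V n | ‖y‖ < 1 ∧ q * ‖y‖ ≤ ⟪e, y⟫_ℝ} with hA
  set B : V n → Set (V n) := fun x => {y : V n | ‖y‖ < 1 ∧ √Q2 * ‖y‖ ≤ ⟪v x, y⟫_ℝ} with hB
  have hsub : nbh θ I ∩ ball 0 1 ⊆ A ∪ ⋃ x ∈ I, B x := by
    rintro y ⟨⟨x, hx, hxy⟩, hy⟩
    rw [mem_ball_zero_iff] at hy
    by_cases h1 : q * ‖y‖ ≤ ⟪e, y⟫_ℝ
    · exact Or.inl ⟨hy, h1⟩
    · right
      push Not at h1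
      have hy0 : y ≠ 0 := by
        rintro rfl
        simp at hxy
      rw [mem_iUnion₂]
      exact ⟨x, hx, hy, (hv x hx).2 y hy0 hxy.le h1.le⟩
  have hAfin : volume A ≠ ⊤ := ((measure_mono (fun y hy => mem_ball_zero_iff.2 hy.1)).trans_lt
    (measure_ball_lt_top (μ := (volume : Measure (V n))) (x := 0) (r := 1))).ne
  have hBfin : ∀ x, volume (B x) ≠ ⊤ := fun x =>
    ((measure_mono (fun y hy => mem_ball_zero_iff.2 hy.1)).trans_lt
    (measure_ball_lt_top (μ := (volume : Measure (V n))) (x := 0) (r := 1))).ne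
  have hBU : volume (⋃ x ∈ I, B x) ≠ ⊤ :=
    ((measure_mono (iUnion₂_subset fun x _ y hy => mem_ball_zero_iff.2 hy.1)).trans_lt
    (measure_ball_lt_top (μ := (volume : Measure (V n))) (x := 0) (r := 1))).ne
  have h1 : volume.real (nbh θ I ∩ ball 0 1) ≤ volume.real A + volume.real (⋃ x ∈ I, B x) :=
    (measureReal_mono hsub (measure_union_ne_top hAfin hBU)).trans (measureReal_union_le _ _)
  have h2 : volume.real A ≤ 3 * (n + 1) / √(1 - q ^ 2) * √(1 - q ^ 2) ^ n * vb (V n) :=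
    cone_vol_le hn he hq0 (Real.sqrt_pos.2 hq2) (by rw [Real.sq_sqrt hq2.le]; ring)
  have h3 : volume.real (⋃ x ∈ I, B x) ≤ ∑ x ∈ I, volume.real (B x) :=
    measureReal_biUnion_finset_le _ _
  have h4 : ∑ x ∈ I, volume.real (B x) ≤ ∑ _x ∈ I,
      3 * (n + 1) / √(1 - Q2) * √(1 - Q2) ^ n * vb (V n) := by
    apply Finset.sum_le_sum
    intro x hx
    exact cone_vol_le hn (hv x hx).1 (Real.sqrt_nonneg _) (Real.sqrt_pos.2 hS2)
      (by rw [Real.sq_sqrt hS2.le, Real.sq_sqrt hQ0.le]; ring)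
  rw [Finset.sum_const, nsmul_eq_mul] at h4
  calc volume.real (nbh θ I ∩ ball 0 1) ≤ _ := h1
    _ ≤ 3 * (n + 1) / √(1 - q ^ 2) * √(1 - q ^ 2) ^ n * vb (V n) +
        I.card * (3 * (n + 1) / √(1 - Q2) * √(1 - Q2) ^ n * vb (V n)) :=
        add_le_add h2 (h3.trans h4)
    _ = _ := by ring

/-- The inequality for the codes of a cap. -/
theorem cap_ineq (hn : 0 < n) {θ c k : ℝ} (h0 : 0 < θ) (h1 : θ < Real.pi / 2) (hc0 : 0 ≤ c)
    (hc1 : c < 1) (hk : 0 ≤ k) (hkc : k ≤ c * Real.cos θ)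
    (hS : Real.cos θ ^ 2 + k ^ 2 / (1 - c ^ 2) < 1) {e : V n} (he : ‖e‖ = 1) {I : Finset (V n)}
    (hI : IsSphCode n θ I) (hIe : ∀ x ∈ I, c ≤ ⟪x, e⟫_ℝ) :
    (I.card : ℝ) ≤ 3 * (n + 1) * sphMax n θ * (√(1 - (c * Real.cos θ - k) ^ 2) ^ (n - 1) +
      I.card * √(1 - (Real.cos θ ^ 2 + k ^ 2 / (1 - c ^ 2))) ^ (n - 1)) := by
  have : NeZero n := ⟨by omega⟩
  have ha : 0 < Real.cos θ := Real.cos_pos_of_mem_Ioo ⟨by linarith [Real.pi_pos], h1⟩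
  have hs : 0 < Real.sin (θ / 2) :=
    Real.sin_pos_of_pos_of_lt_pi (by linarith) (by linarith [Real.pi_pos])
  have ha1 : Real.cos θ < 1 := by rw [cos_eq]; nlinarith
  have h2 := replace hs ha1 hI
  have h3 := nbh_cap_vol hn he hI.1 ha hc0 hc1 hk hkc hS hIe
  have hvb : 0 < vb (V n) := vb_pos
  set q : ℝ := c * Real.cos θ - k with hq
  set Q2 : ℝ := Real.cos θ ^ 2 + k ^ 2 / (1 - c ^ 2) with hQ2
  have hq0 : 0 ≤ q := by rw [hq]; linarith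
  have hq1 : q < 1 := by rw [hq]; nlinarith
  have hs1 : 0 < √(1 - q ^ 2) := Real.sqrt_pos.2 (by nlinarith)
  have hs2 : 0 < √(1 - Q2) := Real.sqrt_pos.2 (by linarith)
  have hp : ∀ s : ℝ, 0 < s → 3 * ((n : ℝ) + 1) / s * s ^ n = 3 * (n + 1) * s ^ (n - 1) := by
    intro s hs
    have : s ^ n = s ^ (n - 1) * s := by rw [← pow_succ]; congr 1; omega
    rw [this]; field_simp
  rw [hp _ hs1, hp _ hs2] at h3
  have h4 := h2.trans (mul_le_mul_of_nonneg_left h3 (Nat.cast_nonneg (sphMax n θ)))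
  have h5 : (I.card : ℝ) * vb (V n) ≤ (3 * (n + 1) * sphMax n θ * (√(1 - q ^ 2) ^ (n - 1) +
      I.card * √(1 - Q2) ^ (n - 1))) * vb (V n) := by
    refine h4.trans (le_of_eq ?_)
    ring
  exact le_of_mul_le_mul_right h5 hvb

end Pool.Agent.H85T
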