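import Pool.Agent.H85T.Cont
import Pool.Agent.H85G.Final

/-! Exponents: the implications between the properties of one dimension. -/

open MeasureTheory Metric Set Filter
open scoped Topology ENNReal InnerProductSpace
open Pool.Agent.H818R2

namespace Pool.Agent.H85T

open Pool.Agent.H85G

/-- `2 K n ≤ 2 ^ (c n)` for large `n` -/
lemma poly_le {K c : ℝ} (hc : 0 < c) : ∀ᶠ n : ℕ in atTop, 2 * K * n ≤ (2 : ℝ) ^ (c * n) := by
  have h1 : Tendsto (fun n : ℕ => ((n : ℝ) ^ 1) * ((2 : ℝ) ^ (-c)) ^ n) atTop (𝓝 0) :=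
    tendsto_pow_const_mul_const_pow_of_abs_lt_one 1 (by
      rw [abs_of_pos (by positivity)]
      exact Real.rpow_lt_one_of_one_lt_of_neg (by norm_num) (by linarith))
  have h2 : Tendsto (fun n : ℕ => 2 * K * (((n : ℝ) ^ 1) * ((2 : ℝ) ^ (-c)) ^ n)) atTop
      (𝓝 (2 * K * 0)) := h1.const_mul _
  rw [mul_zero] at h2
  filter_upwards [h2.eventually (gt_mem_nhds one_pos)] with n hn
  have e3 : ((2 : ℝ) ^ (-c)) ^ n = (2 : ℝ) ^ (-c * n) := by
    rw [Real.rpow_mul (by norm_num), Real.rpow_natCast]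
  rw [pow_one, e3] at hn
  have e : (2 : ℝ) ^ (-c * n) * (2 : ℝ) ^ (c * n) = 1 := by
    rw [← Real.rpow_add (by norm_num)]; simp
  have hp : (0 : ℝ) < (2 : ℝ) ^ (c * n) := by positivity
  calc 2 * K * n = 2 * K * n * ((2 : ℝ) ^ (-c * n) * (2 : ℝ) ^ (c * n)) := by rw [e, mul_one]
    _ = 2 * K * (n * (2 : ℝ) ^ (-c * n)) * (2 : ℝ) ^ (c * n) := by ring
    _ ≤ 1 * (2 : ℝ) ^ (c * n) := mul_le_mul_of_nonneg_right hn.le hp.le
    _ = _ := one_mul _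

/-- the consequence of the inequality for exponents -/
lemma force {K x y L w c : ℝ} (hK : 0 < K) (hc : 0 < c) (h1 : w + 2 * c ≤ L + x)
    (h2 : w + 2 * c ≤ y) : ∀ᶠ n : ℕ in atTop, ∀ M A : ℝ, 0 ≤ A → (2 : ℝ) ^ (L * n) ≤ M →
      M ≤ K * n * A * (((2 : ℝ) ^ (-x)) ^ n + M * ((2 : ℝ) ^ (-y)) ^ n) →
      (2 : ℝ) ^ ((w + c) * n) ≤ A := by
  filter_upwards [poly_le (K := K) hc, eventually_ge_atTop 1] with n hn hn1 M A hA hM h
  by_contra hcon
  push Not at hcon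
  have hn0 : (0 : ℝ) < n := by exact_mod_cast hn1
  have hM0 : 0 < M := lt_of_lt_of_le (by positivity) hM
  have e1 : ∀ z : ℝ, ((2 : ℝ) ^ (-z)) ^ n = (2 : ℝ) ^ (-z * n) := by
    intro z
    rw [Real.rpow_mul (by norm_num), Real.rpow_natCast]
  rw [e1, e1] at h
  have h3 : K * n * A < 1 / 2 * (2 : ℝ) ^ ((w + 2 * c) * n) := by
    have e2 : (2 : ℝ) ^ ((w + 2 * c) * n) = (2 : ℝ) ^ (c * n) * (2 : ℝ) ^ ((w + c) * n) := by
      rw [← Real.rpow_add (by norm_num)]; congr 1; ring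
    rw [e2]
    calc K * n * A < K * n * (2 : ℝ) ^ ((w + c) * n) := mul_lt_mul_of_pos_left hcon (by positivity)
      _ = 1 / 2 * (2 * K * n * (2 : ℝ) ^ ((w + c) * n)) := by ring
      _ ≤ 1 / 2 * ((2 : ℝ) ^ (c * n) * (2 : ℝ) ^ ((w + c) * n)) := by
          apply mul_le_mul_of_nonneg_left _ (by norm_num)
          exact mul_le_mul_of_nonneg_right hn (by positivity)
  have h4 : (2 : ℝ) ^ ((w + 2 * c) * n) * (2 : ℝ) ^ (-x * n) ≤ M := by
    rw [← Real.rpow_add (by norm_num)]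
    refine le_trans (Real.rpow_le_rpow_of_exponent_le (by norm_num) ?_) hM
    nlinarith
  have h5 : (2 : ℝ) ^ ((w + 2 * c) * n) * (2 : ℝ) ^ (-y * n) ≤ 1 := by
    rw [← Real.rpow_add (by norm_num)]
    apply Real.rpow_le_one_of_one_le_of_nonpos (by norm_num)
    nlinarith
  have hpx : (0 : ℝ) < (2 : ℝ) ^ (-x * n) := by positivity
  have hpy : (0 : ℝ) < (2 : ℝ) ^ (-y * n) := by positivity
  have h6 : K * n * A * ((2 : ℝ) ^ (-x * n) + M * (2 : ℝ) ^ (-y * n)) < M := by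
    calc K * n * A * ((2 : ℝ) ^ (-x * n) + M * (2 : ℝ) ^ (-y * n))
        < 1 / 2 * (2 : ℝ) ^ ((w + 2 * c) * n) * ((2 : ℝ) ^ (-x * n) + M * (2 : ℝ) ^ (-y * n)) :=
          mul_lt_mul_of_pos_right h3 (by positivity)
      _ = 1 / 2 * ((2 : ℝ) ^ ((w + 2 * c) * n) * (2 : ℝ) ^ (-x * n)) +
          1 / 2 * M * ((2 : ℝ) ^ ((w + 2 * c) * n) * (2 : ℝ) ^ (-y * n)) := by ring
      _ ≤ 1 / 2 * M + 1 / 2 * M * 1 := by
          apply add_le_add
          · exact mul_le_mul_of_nonneg_left h4 (by norm_num)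
          · exact mul_le_mul_of_nonneg_left h5 (by positivity)
      _ = M := by ring
  linarith

/-- the threshold exponent of the codes of a cap, `c` the cosine of its radius -/
noncomputable def thr (a c : ℝ) : ℝ := 1 / 2 * Real.logb 2 ((1 - c ^ 2 * a ^ 2) / (1 - a ^ 2))

lemma logb_sqrt {x : ℝ} (hx : 0 ≤ x) : Real.logb 2 (√x) = 1 / 2 * Real.logb 2 x := by
  rw [Real.sqrt_eq_rpow]
  rcases eq_or_lt_of_le hx with h | h
  · rw [← h]; simp
  · rw [Real.logb_rpow_eq_mul_logb_of_pos h]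

/-- the choice of the parameter `k` -/
lemma exists_k {a c κ : ℝ} (ha0 : 0 < a) (ha1 : a < 1) (hc0 : 0 < c) (hc1 : c < 1) (hκ : 0 < κ) :
    ∃ k : ℝ, 0 < k ∧ k ≤ c * a ∧ a ^ 2 + k ^ 2 / (1 - c ^ 2) < 1 ∧ ∃ d : ℝ, 0 < d ∧
      -(1 / 2 * Real.logb 2 (1 - a ^ 2)) + 2 * d ≤
        (thr a c + κ) + -Real.logb 2 (√(1 - (c * a - k) ^ 2)) ∧
      -(1 / 2 * Real.logb 2 (1 - a ^ 2)) + 2 * d ≤
        -Real.logb 2 (√(1 - (a ^ 2 + k ^ 2 / (1 - c ^ 2)))) := by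
  have hc2 : 0 < 1 - c ^ 2 := by nlinarith
  have ha2 : 0 < 1 - a ^ 2 := by nlinarith
  have hca : c * a < 1 := by nlinarith
  have hca2 : 0 < 1 - (c * a) ^ 2 := by nlinarith [mul_pos hc0 ha0]
  -- continuity
  have hcont : ContinuousAt (fun k : ℝ => -Real.logb 2 (√(1 - (c * a - k) ^ 2))) 0 := by
    apply ContinuousAt.neg
    unfold Real.logb
    apply ContinuousAt.div_const
    apply ContinuousAt.log
    · fun_prop
    · simp only [sub_zero]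
      exact (Real.sqrt_pos.2 hca2).ne'
  have h1 : ∀ᶠ k in 𝓝[>] (0 : ℝ), -Real.logb 2 (√(1 - (c * a - 0) ^ 2)) - κ / 2 <
      -Real.logb 2 (√(1 - (c * a - k) ^ 2)) :=
    nhdsWithin_le_nhds (hcont.eventually (lt_mem_nhds (by linarith)))
  have h2 : ∀ᶠ k in 𝓝[>] (0 : ℝ), k < c * a :=
    nhdsWithin_le_nhds (gt_mem_nhds (mul_pos hc0 ha0))
  have h3 : ∀ᶠ k in 𝓝[>] (0 : ℝ), a ^ 2 + k ^ 2 / (1 - c ^ 2) < 1 := by
    have : ContinuousAt (fun k : ℝ => a ^ 2 + k ^ 2 / (1 - c ^ 2)) 0 := by fun_prop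
    refine nhdsWithin_le_nhds (this.eventually (gt_mem_nhds ?_))
    change a ^ 2 + 0 ^ 2 / (1 - c ^ 2) < 1
    rw [zero_pow two_ne_zero, zero_div, add_zero]
    linarith
  obtain ⟨k, hk1, hk2, hk3, hk0⟩ := (h1.and (h2.and (h3.and self_mem_nhdsWithin))).exists
  have hk0 : 0 < k := hk0
  have hy : -(1 / 2 * Real.logb 2 (1 - a ^ 2)) <
      -Real.logb 2 (√(1 - (a ^ 2 + k ^ 2 / (1 - c ^ 2)))) := by
    rw [logb_sqrt (by linarith)]
    have : Real.logb 2 (1 - (a ^ 2 + k ^ 2 / (1 - c ^ 2))) < Real.logb 2 (1 - a ^ 2) := by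
      apply Real.logb_lt_logb (by norm_num) (by linarith)
      have : 0 < k ^ 2 / (1 - c ^ 2) := by positivity
      linarith
    linarith
  have hx : thr a c + -Real.logb 2 (√(1 - (c * a - 0) ^ 2)) =
      -(1 / 2 * Real.logb 2 (1 - a ^ 2)) := by
    rw [logb_sqrt (by rw [sub_zero]; exact hca2.le), thr, sub_zero,
      Real.logb_div (by nlinarith) ha2.ne', ← mul_pow]
    ring
  refine ⟨k, hk0, hk2.le, hk3, min (κ / 4)
    ((-Real.logb 2 (√(1 - (a ^ 2 + k ^ 2 / (1 - c ^ 2)))) +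
      1 / 2 * Real.logb 2 (1 - a ^ 2)) / 2), lt_min (by linarith) (by linarith), ?_, ?_⟩
  · have := min_le_left (κ / 4) ((-Real.logb 2 (√(1 - (a ^ 2 + k ^ 2 / (1 - c ^ 2)))) +
      1 / 2 * Real.logb 2 (1 - a ^ 2)) / 2)
    linarith
  · have := min_le_right (κ / 4) ((-Real.logb 2 (√(1 - (a ^ 2 + k ^ 2 / (1 - c ^ 2)))) +
      1 / 2 * Real.logb 2 (1 - a ^ 2)) / 2)
    linarith

section
variable {θ : ℝ} (h0 : 0 < θ) (h1 : θ < Real.pi / 2)
include h0 h1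

lemma cos_pos' : 0 < Real.cos θ := Real.cos_pos_of_mem_Ioo ⟨by linarith [Real.pi_pos], h1⟩

lemma cos_lt : Real.cos θ < 1 := by
  rw [cos_eq]; nlinarith [sin_half h0 h1]

omit h0 h1 in
lemma wyner_eq (θ : ℝ) : -(1 / 2 * Real.logb 2 (1 - Real.cos θ ^ 2)) = -Real.logb 2 (Real.sin θ) := by
  have h2 : 1 - Real.cos θ ^ 2 = Real.sin θ ^ 2 := by
    have := Real.sin_sq_add_cos_sq θ
    linarith
  rw [h2, Real.logb_pow]
  push_cast
  ring

lemma rate_iff {c : ℝ} {n : ℕ} (hn : 2 ≤ n) :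
    (2 : ℝ) ^ ((-Real.logb 2 (Real.sin θ) + c) * n) ≤ sphMax n θ ↔
      -Real.logb 2 (Real.sin θ) + c ≤ codeRate θ n := by
  rw [← logb_inv_pow (sin_pos h0 h1)]
  exact rate_ge h0 h1 hn

/-- From large codes in a cap to large codes. -/
theorem key_cap {c κ : ℝ} (hc0 : 0 < c) (hc1 : c < 1) (hκ : 0 < κ) :
    ∃ d : ℝ, 0 < d ∧ ∀ᶠ n : ℕ in atTop, ∀ (I : Finset (EuclideanSpace ℝ (Fin n)))
      (e : EuclideanSpace ℝ (Fin n)), IsSphCode n θ I → ‖e‖ = 1 → (∀ x ∈ I, c ≤ ⟪x, e⟫_ℝ) →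
      (2 : ℝ) ^ ((thr (Real.cos θ) c + κ) * n) ≤ I.card →
      -Real.logb 2 (Real.sin θ) + d ≤ codeRate θ n := by
  have ha0 := cos_pos' h0 h1
  have ha1 := cos_lt h0 h1
  obtain ⟨k, hk0, hkc, hkS, d, hd, hd1, hd2⟩ := exists_k ha0 ha1 hc0 hc1 hκ
  rw [wyner_eq θ] at hd1 hd2
  set s1 := √(1 - (c * Real.cos θ - k) ^ 2) with hs1
  set s2 := √(1 - (Real.cos θ ^ 2 + k ^ 2 / (1 - c ^ 2))) with hs2
  have hs1p : 0 < s1 := Real.sqrt_pos.2 (by
    have h3 : c * Real.cos θ < 1 := by nlinarith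
    have h4 : (c * Real.cos θ - k) ^ 2 < 1 := by nlinarith
    linarith)
  have hs2p : 0 < s2 := Real.sqrt_pos.2 (by linarith)
  have hK : 0 < 6 / min s1 s2 := div_pos (by norm_num) (lt_min hs1p hs2p)
  refine ⟨d, hd, ?_⟩
  filter_upwards [force hK hd hd1 hd2, eventually_ge_atTop 2] with n hn hn2 I e hI he hIe hM
  have hn0 : 0 < n := by omega
  rw [← rate_iff h0 h1 hn2]
  apply hn _ _ (Nat.cast_nonneg _) hM
  refine (cap_ineq hn0 h0 h1 hc0.le hc1 hk0.le hkc hkS he hI hIe).trans ?_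
  rw [Real.rpow_neg (by norm_num), Real.rpow_neg (by norm_num), Real.rpow_neg (by norm_num),
    Real.rpow_neg (by norm_num), inv_inv, inv_inv, Real.rpow_logb (by norm_num) (by norm_num) hs1p,
    Real.rpow_logb (by norm_num) (by norm_num) hs2p]
  have hpw : ∀ s : ℝ, 0 < s → min s1 s2 ≤ s → s ^ (n - 1) ≤ s ^ n / min s1 s2 := by
    intro s hs hms
    rw [le_div_iff₀ (lt_min hs1p hs2p)]
    calc s ^ (n - 1) * min s1 s2 ≤ s ^ (n - 1) * s := mul_le_mul_of_nonneg_left hms (by positivity)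
      _ = s ^ n := by rw [← pow_succ]; congr 1; omega
  have hn1 : (1 : ℝ) ≤ n := by exact_mod_cast hn0
  have hA : (0 : ℝ) ≤ sphMax n θ := Nat.cast_nonneg _
  have hMc : (0 : ℝ) ≤ I.card := Nat.cast_nonneg _
  calc 3 * ((n : ℝ) + 1) * sphMax n θ * (s1 ^ (n - 1) + I.card * s2 ^ (n - 1))
      ≤ 6 * n * sphMax n θ * (s1 ^ n / min s1 s2 + I.card * (s2 ^ n / min s1 s2)) := by
        apply mul_le_mul
        · apply mul_le_mul_of_nonneg_right _ hA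
          linarith
        · exact add_le_add (hpw s1 hs1p (min_le_left _ _))
            (mul_le_mul_of_nonneg_left (hpw s2 hs2p (min_le_right _ _)) hMc)
        · positivity
        · positivity
    _ = _ := by ring

end

end Pool.Agent.H85T
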