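import Pool.Agent.H85T.Keys

/-! Exponents: angles and neighbourhoods. -/

open MeasureTheory Metric Set Filter
open scoped Topology ENNReal InnerProductSpace
open Pool.Agent.H818R2

namespace Pool.Agent.H85T

open Pool.Agent.H85G

/-- the threshold exponent of the codes of angle `φ` -/
noncomputable def bnd (θ φ : ℝ) : ℝ :=
  1 / 2 * Real.logb 2 (1 + Real.cos θ ^ 2 / ((1 - Real.cos φ) * (1 + Real.cos θ)))

section
variable {θ : ℝ} (h0 : 0 < θ) (h1 : θ < Real.pi / 2)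
include h0 h1

lemma ca_pos {φ : ℝ} (hφ : Real.cos φ < Real.cos θ) : 0 < ca θ φ := by
  have := cos_lt h0 h1
  exact Real.sqrt_pos.2 (div_pos (by linarith) (by linarith))

lemma ca_sq {φ : ℝ} (hφ : Real.cos φ < Real.cos θ) :
    1 - ca θ φ ^ 2 = (1 - Real.cos θ) / (1 - Real.cos φ) := by
  have := cos_lt h0 h1
  unfold ca
  rw [Real.sq_sqrt (div_nonneg (by linarith) (by linarith))]
  have : (1 - Real.cos φ) ≠ 0 := by linarith
  field_simp
  ring

lemma ca_lt {φ : ℝ} (hφ : Real.cos φ < Real.cos θ) : ca θ φ < 1 := by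
  have h2 := cos_lt h0 h1
  have h3 := ca_sq h0 h1 hφ
  have h4 : 0 < (1 - Real.cos θ) / (1 - Real.cos φ) := div_pos (by linarith) (by linarith)
  have h5 := ca_pos h0 h1 hφ
  nlinarith

lemma thr_ca {φ : ℝ} (hφ : Real.cos φ < Real.cos θ) : thr (Real.cos θ) (ca θ φ) = bnd θ φ := by
  unfold thr bnd
  congr 2
  have h2 := cos_lt h0 h1
  have ha := cos_pos' h0 h1
  have h3 : ca θ φ ^ 2 = 1 - (1 - Real.cos θ) / (1 - Real.cos φ) := by
    rw [← ca_sq h0 h1 hφ]; ring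
  rw [h3]
  have e1 : (1 - Real.cos φ) ≠ 0 := by linarith
  have e2 : (1 + Real.cos θ) ≠ 0 := by linarith
  have e3 : (1 - Real.cos θ) ≠ 0 := by linarith
  have e4 : 1 - Real.cos θ ^ 2 = (1 - Real.cos θ) * (1 + Real.cos θ) := by ring
  rw [e4]
  field_simp
  ring

/-- `2 ^ (2 thr) = 1 + (sin α / tan θ)²`, for a cap of radius `α` -/
lemma two_thr (α : ℝ) : (2 : ℝ) ^ (2 * thr (Real.cos θ) (Real.cos α)) =
    1 + (Real.sin α / Real.tan θ) ^ 2 := by
  have ha := cos_pos' h0 h1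
  have hs := sin_pos h0 h1
  have hsc := Real.sin_sq_add_cos_sq θ
  have hscα := Real.sin_sq_add_cos_sq α
  unfold thr
  rw [← mul_assoc, show (2 : ℝ) * (1 / 2) = 1 by norm_num, one_mul]
  have e1 : 1 - Real.cos θ ^ 2 = Real.sin θ ^ 2 := by linarith
  have e2 : (1 - Real.cos α ^ 2 * Real.cos θ ^ 2) / (1 - Real.cos θ ^ 2) =
      1 + (Real.sin α / Real.tan θ) ^ 2 := by
    rw [e1, Real.tan_eq_sin_div_cos]
    have e3 : Real.sin α ^ 2 = 1 - Real.cos α ^ 2 := by linarith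
    field_simp
    rw [e3]
    linear_combination -hsc
  rw [e2, Real.rpow_logb (by norm_num) (by norm_num) (by positivity)]

lemma thr_pow (α κ : ℝ) (n : ℕ) :
    (2 : ℝ) ^ ((thr (Real.cos θ) (Real.cos α) + κ) * n) =
      (2 : ℝ) ^ (κ * n) * (1 + (Real.sin α / Real.tan θ) ^ 2) ^ ((n : ℝ) / 2) := by
  rw [← two_thr h0 h1 α, ← Real.rpow_mul (by norm_num), ← Real.rpow_add (by norm_num)]
  congr 1; ring

/-- From large codes of angle `φ` to large codes of angle `θ`. -/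
theorem key_angle {φ κ : ℝ} (hφ : Real.cos φ < Real.cos θ) (hκ : 0 < κ) :
    ∃ d : ℝ, 0 < d ∧ ∀ᶠ n : ℕ in atTop, 0 < sphMax n φ → bnd θ φ + κ ≤ codeRate φ n →
      -Real.logb 2 (Real.sin θ) + d ≤ codeRate θ n := by
  have ha0 := cos_pos' h0 h1
  have ha1 := cos_lt h0 h1
  obtain ⟨K, hK, hineq⟩ := angle_ineq h0 h1
  obtain ⟨k, hk0, hkc, hkS, d, hd, hd1, hd2⟩ := exists_k ha0 ha1 (ca_pos h0 h1 hφ)
    (ca_lt h0 h1 hφ) hκ
  rw [wyner_eq θ, thr_ca h0 h1 hφ] at hd1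
  rw [wyner_eq θ] at hd2
  have hb1 : 0 < 1 - Real.cos φ := by linarith
  have hkk : k ^ 2 / (1 - ca θ φ ^ 2) = k ^ 2 * (1 - Real.cos φ) / (1 - Real.cos θ) := by
    rw [ca_sq h0 h1 hφ, div_div_eq_mul_div]
  have hsc := Real.sin_sq_add_cos_sq θ
  have hkS' : k ^ 2 * (1 - Real.cos φ) < (1 - Real.cos θ) * Real.sin θ ^ 2 := by
    rw [hkk] at hkS
    have : k ^ 2 * (1 - Real.cos φ) / (1 - Real.cos θ) < Real.sin θ ^ 2 := by linarith
    rw [div_lt_iff₀ (by linarith)] at this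
    linarith
  have e1 : 1 - (Real.cos θ ^ 2 + k ^ 2 / (1 - ca θ φ ^ 2)) =
      Real.sin θ ^ 2 - k ^ 2 * (1 - Real.cos φ) / (1 - Real.cos θ) := by rw [hkk]; linarith
  rw [e1] at hd2
  set s1 := √(1 - (ca θ φ * Real.cos θ - k) ^ 2) with hs1
  set s2 := √(Real.sin θ ^ 2 - k ^ 2 * (1 - Real.cos φ) / (1 - Real.cos θ)) with hs2
  have hs1p : 0 < s1 := Real.sqrt_pos.2 (by
    have := ca_lt h0 h1 hφ
    have h3 : ca θ φ * Real.cos θ < 1 := by nlinarith
    have h4 : (ca θ φ * Real.cos θ - k) ^ 2 < 1 := by nlinarith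
    linarith)
  have hs2p : 0 < s2 := Real.sqrt_pos.2 (by rw [← e1]; linarith)
  refine ⟨d, hd, ?_⟩
  filter_upwards [force hK hd hd1 hd2, eventually_ge_atTop 4] with n hn hn4 hpos hrate
  have hn2 : 2 ≤ n := by omega
  have hn0 : (0 : ℝ) < n := by
    have : 0 < n := by omega
    exact_mod_cast this
  rw [← rate_iff h0 h1 hn2]
  refine hn (sphMax n φ) _ (Nat.cast_nonneg _) ?_ ?_
  · rw [← Real.le_logb_iff_rpow_le (by norm_num) (by exact_mod_cast hpos)]
    unfold codeRate at hrate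
    rwa [le_div_iff₀ hn0] at hrate
  · refine (hineq n hn4 φ k hφ hk0.le hkc hkS').trans (le_of_eq ?_)
    rw [Real.rpow_neg (by norm_num), Real.rpow_neg (by norm_num), Real.rpow_neg (by norm_num),
      Real.rpow_neg (by norm_num), inv_inv, inv_inv, Real.rpow_logb (by norm_num) (by norm_num) hs1p,
      Real.rpow_logb (by norm_num) (by norm_num) hs2p]

/-- From overlapping caps to large codes. -/
theorem key_nbh {κ : ℝ} {n : ℕ} (hn : 2 ≤ n) {I : Finset (EuclideanSpace ℝ (Fin n))}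
    (hI : IsSphCode n θ I)
    (h : (2 : ℝ) ^ (κ * n) * volume.real (nbh θ I ∩ ball 0 1) ≤
      I.card * (Real.sin θ ^ n * vb (EuclideanSpace ℝ (Fin n)))) (hI0 : I.Nonempty) :
    -Real.logb 2 (Real.sin θ) + κ ≤ codeRate θ n := by
  have : NeZero n := ⟨by omega⟩
  have hvb : 0 < vb (EuclideanSpace ℝ (Fin n)) := vb_pos
  have hs := sin_pos h0 h1
  have h2 := replace (sin_half h0 h1) (cos_lt h0 h1) hI
  have hI1 : (0 : ℝ) < I.card := by exact_mod_cast Finset.card_pos.2 hI0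
  have hvol : 0 < volume.real (nbh θ I ∩ ball 0 1) := by
    by_contra hcon
    push Not at hcon
    have h3 : (sphMax n θ : ℝ) * volume.real (nbh θ I ∩ ball 0 1) ≤ 0 :=
      mul_nonpos_of_nonneg_of_nonpos (Nat.cast_nonneg _) hcon
    have := mul_pos hI1 hvb
    linarith
  rw [← rate_ge h0 h1 hn]
  have h3 : (2 : ℝ) ^ (κ * n) * volume.real (nbh θ I ∩ ball 0 1) ≤
      sphMax n θ * Real.sin θ ^ n * volume.real (nbh θ I ∩ ball 0 1) := by
    calc _ ≤ _ := h
      _ = (I.card * vb (EuclideanSpace ℝ (Fin n))) * Real.sin θ ^ n := by ring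
      _ ≤ (sphMax n θ * volume.real (nbh θ I ∩ ball 0 1)) * Real.sin θ ^ n :=
          mul_le_mul_of_nonneg_right h2 (by positivity)
      _ = _ := by ring
  have h4 := le_of_mul_le_mul_right h3 hvol
  rw [one_div, inv_pow, ← div_eq_mul_inv, div_le_iff₀ (by positivity)]
  exact h4

/-- From large codes to overlapping caps. -/
theorem key_nbh_conv {κ : ℝ} {n : ℕ} (hn : 2 ≤ n)
    (h : -Real.logb 2 (Real.sin θ) + κ ≤ codeRate θ n) :
    ∃ I : Finset (EuclideanSpace ℝ (Fin n)), IsSphCode n θ I ∧ I.card = sphMax n θ ∧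
      (2 : ℝ) ^ (κ * n) * volume.real (nbh θ I ∩ ball 0 1) ≤
      I.card * (Real.sin θ ^ n * vb (EuclideanSpace ℝ (Fin n))) := by
  have : NeZero n := ⟨by omega⟩
  have hs := sin_pos h0 h1
  obtain ⟨C, hC, hCc⟩ := Nat.sSup_mem (sph_nonempty n θ) (sph_bdd (sin_half h0 h1))
  change C.card = sphMax n θ at hCc
  refine ⟨C, hC, hCc, ?_⟩
  rw [← rate_ge h0 h1 hn, one_div, inv_pow, ← div_eq_mul_inv, div_le_iff₀ (by positivity)] at h
  have h2 : volume.real (nbh θ C ∩ ball (0 : EuclideanSpace ℝ (Fin n)) 1) ≤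
      vb (EuclideanSpace ℝ (Fin n)) :=
    measureReal_mono inter_subset_right measure_ball_lt_top.ne
  rw [hCc]
  calc (2 : ℝ) ^ (κ * n) * volume.real (nbh θ C ∩ ball 0 1)
      ≤ (sphMax n θ * Real.sin θ ^ n) * vb (EuclideanSpace ℝ (Fin n)) :=
        mul_le_mul h h2 measureReal_nonneg (by positivity)
    _ = _ := by ring

end

end Pool.Agent.H85T
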